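import Mathlib
import Pool.Agent.H576.CT.Stm

/-!
# One stage of covering in cycles (project CT of helper576, MP_10effd_pr)

`ct_drop`: the value of reaching a return to the centre `o` with fewer than `K0` unvisited vertices of `B`,
started at `o` with visited set `S`, is at most `tot * R * |B \ S| / K0`.
-/

set_option autoImplicit false
set_option linter.unusedSectionVars false

namespace Pool.Agent.H800

open Finset Pool.Agent.TH112.BW Pool.Agent.H576.CT

variable {V : Type} [Fintype V] [DecidableEq V] (G : SimpleGraph V) [DecidableRel G.Adj]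

/-- the potential of one stage: hitting time of the centre plus `c` times the expected number of vertices of `A` not
met before the next return -/
noncomputable def ctPt (h : V → ℝ) (q : V → V → ℝ) (c : ℝ) (A : Finset V) (x : V) : ℝ :=
  h x + c * ((A.card : ℝ) - ∑ v ∈ A, q v x)

theorem ctPt_nonneg (h : V → ℝ) (q : V → V → ℝ) (c : ℝ) (A : Finset V) (x : V)
    (hpos : ∀ x, 0 ≤ h x) (hq : ∀ v ∈ A, ∀ x, q v x ≤ 1) (hc : 0 ≤ c) : 0 ≤ ctPt h q c A x := by
  unfold ctPt
  have h1 : ∑ v ∈ A, q v x ≤ A.card := by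
    calc ∑ v ∈ A, q v x ≤ ∑ v ∈ A, (1 : ℝ) := Finset.sum_le_sum fun v hv => hq v hv x
      _ = A.card := by simp
  have h2 := mul_nonneg hc (sub_nonneg.mpr h1)
  linarith [hpos x]

theorem lap_ctPt (w : V → ℝ) (h : V → ℝ) (q : V → V → ℝ) (c : ℝ) (A : Finset V) (x : V) :
    lap G w (ctPt h q c A) x = lap G w h x - c * ∑ v ∈ A, lap G w (q v) x := by
  unfold lap ctPt
  have hs : ∑ v ∈ A, ∑ y ∈ G.neighborFinset x, w y * (q v x - q v y)
      = ∑ y ∈ G.neighborFinset x, ∑ v ∈ A, w y * (q v x - q v y) := Finset.sum_comm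
  rw [hs, Finset.mul_sum, ← Finset.sum_sub_distrib]
  refine Finset.sum_congr rfl fun y _ => ?_
  have hs3 : ∑ v ∈ A, w y * (q v x - q v y) = w y * (∑ v ∈ A, q v x - ∑ v ∈ A, q v y) := by
    rw [← Finset.mul_sum, Finset.sum_sub_distrib]
  rw [hs3]
  ring

theorem ctPt_erase (h : V → ℝ) (q : V → V → ℝ) (c : ℝ) (A : Finset V) (y : V) (hy : y ∈ A)
    (hqy : q y y = 1) : ctPt h q c (A.erase y) y = ctPt h q c A y := by
  unfold ctPt
  rw [← Finset.add_sum_erase A (fun v => q v y) hy, hqy]
  have hc : (((A.erase y).card : ℕ) : ℝ) = A.card - 1 := by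
    rw [Finset.card_erase_of_mem hy]
    have : 1 ≤ A.card := Finset.card_pos.mpr ⟨y, hy⟩
    push_cast [Nat.cast_sub this]
    ring
  rw [hc]
  ring

theorem ct_drop : S_DROP := by
  intro V _ _ G _ ε hε0 hε1 hN hG w hw o R hR B S hoS hres K0 hK0 k
  obtain ⟨h, h0, hpos, hlap, hflow, hkac⟩ := exists_hit G hG w hw.1 o
  have htot : 0 ≤ tot G w := Finset.sum_nonneg fun x _ => mul_nonneg (hw.1 x).le (dg_nonneg G w hw.1 x)
  have hq : ∀ v : V, ∃ q : V → ℝ, v ∈ B \ S → (q o = 0 ∧ q v = 1 ∧ (∀ x, 0 ≤ q x) ∧ (∀ x, q x ≤ 1) ∧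
      (∀ x, x ≠ o → x ≠ v → lap G w q x = 0) ∧
      0 ≤ w o * (∑ y ∈ G.neighborFinset o, w y * q y) ∧
      FlowLe G w q (w o * (∑ y ∈ G.neighborFinset o, w y * q y))) := by
    intro v
    by_cases hv : v ∈ B \ S
    · obtain ⟨q, hq⟩ := exists_prob G hG w hw.1 o v (fun h => (Finset.mem_sdiff.mp hv).2 (h ▸ hoS))
      exact ⟨q, fun _ => hq⟩
    · exact ⟨fun _ => 0, fun h => absurd h hv⟩
  choose q hq using hq
  set g := tot G w * R with hg
  have hg0 : 0 ≤ g := mul_nonneg htot hR
  have hgI : ∀ v ∈ B \ S, tot G w ≤ g * (w o * (∑ y ∈ G.neighborFinset o, w y * q v y)) := by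
    intro v hv
    obtain ⟨a1, a2, a3, a4, a5, a6, a7⟩ := hq v hv
    have := (hres v hv (q v) _ a6 a7).1
    rw [a1, a2] at this
    have h1 : 1 ≤ R * (w o * (∑ y ∈ G.neighborFinset o, w y * q v y)) := by linarith
    calc tot G w = tot G w * 1 := by ring
      _ ≤ tot G w * (R * (w o * (∑ y ∈ G.neighborFinset o, w y * q v y))) :=
          mul_le_mul_of_nonneg_left h1 htot
      _ = _ := by rw [hg]; ring
  have hKR : (0 : ℝ) < K0 := by exact_mod_cast hK0
  have hc0 : 0 ≤ g / K0 := div_nonneg hg0 hKR.le
  have key : ∀ (k : ℕ) (x : V) (S' : Finset V), S ⊆ S' → x ∈ S' →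
      J G ε hN (fun x S' => x = o ∧ S ⊆ S' ∧ (B \ S').card < K0) k x S'
        ≤ ctPt h q (g / K0) (B \ S') x := by
    intro k
    induction k with
    | zero =>
      intro x S' hSS hx
      have hsub : B \ S' ⊆ B \ S := Finset.sdiff_subset_sdiff (Finset.Subset.refl _) hSS
      rw [J_zero]
      exact ctPt_nonneg h q _ _ x hpos (fun v hv => (hq v (hsub hv)).2.2.2.1) hc0
    | succ k ih =>
      intro x S' hSS hx
      have hsub : B \ S' ⊆ B \ S := Finset.sdiff_subset_sdiff (Finset.Subset.refl _) hSS
      have hnn : 0 ≤ ctPt h q (g / K0) (B \ S') x :=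
        ctPt_nonneg h q _ _ x hpos (fun v hv => (hq v (hsub hv)).2.2.2.1) hc0
      by_cases hD : x = o ∧ S ⊆ S' ∧ (B \ S').card < K0
      · rw [J_succ_pos hN _ k x S' hD]; exact hnn
      · refine J_step hε0 hε1 hN w hw _ k x S' (ctPt h q (g / K0) (B \ S')) hnn ?_ ?_
        · intro y _
          have h1 := ih y (insert y S') (hSS.trans (Finset.subset_insert _ _)) (Finset.mem_insert_self _ _)
          have e : B \ insert y S' = (B \ S').erase y := by
            ext z
            simp only [Finset.mem_sdiff, Finset.mem_insert, Finset.mem_erase]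
            tauto
          rw [e] at h1
          by_cases hy : y ∈ B \ S'
          · rw [ctPt_erase h q _ _ y hy (hq y (hsub hy)).2.1] at h1
            exact h1
          · rw [Finset.erase_eq_of_notMem hy] at h1
            exact h1
        · rw [lap_ctPt]
          by_cases hxo : x = o
          · have hcard : K0 ≤ (B \ S').card := by
              by_contra hlt
              exact hD ⟨hxo, hSS, not_le.mp hlt⟩
            have hcR : (K0 : ℝ) ≤ (B \ S').card := by exact_mod_cast hcard
            rw [hxo]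
            have hwo := hw.1 o
            have e1 : lap G w h o = - ∑ y ∈ G.neighborFinset o, w y * h y := by rw [lap_eq, h0]; ring
            have e2 : ∀ v ∈ B \ S', lap G w (q v) o = - ∑ y ∈ G.neighborFinset o, w y * q v y := by
              intro v hv
              rw [lap_eq, (hq v (hsub hv)).1]; ring
            rw [e1, Finset.sum_congr rfl e2, Finset.sum_neg_distrib]
            set Q := ∑ v ∈ B \ S', ∑ y ∈ G.neighborFinset o, w y * q v y with hQ
            have e3 : ((B \ S').card : ℝ) * tot G w ≤ g * (w o * Q) := by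
              rw [hQ, Finset.mul_sum, Finset.mul_sum]
              calc ((B \ S').card : ℝ) * tot G w = ∑ v ∈ B \ S', tot G w := by
                    rw [Finset.sum_const, nsmul_eq_mul]
                _ ≤ ∑ v ∈ B \ S', g * (w o * ∑ y ∈ G.neighborFinset o, w y * q v y) :=
                    Finset.sum_le_sum fun v hv => hgI v (hsub hv)
            have e4 : tot G w ≤ w o * (g / K0 * Q) := by
              have : w o * (g / K0 * Q) = (g * (w o * Q)) / K0 := by ring
              rw [this, le_div_iff₀ hKR]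
              have := mul_le_mul_of_nonneg_right hcR htot
              linarith
            have e5 : w o * dg G w o ≤ w o * (-∑ y ∈ G.neighborFinset o, w y * h y - g / K0 * -Q) := by
              have : w o * (-∑ y ∈ G.neighborFinset o, w y * h y - g / K0 * -Q)
                  = - (w o * ∑ y ∈ G.neighborFinset o, w y * h y) + w o * (g / K0 * Q) := by ring
              rw [this, hkac]
              linarith
            exact le_of_mul_le_mul_left e5 hwo
          · rw [hlap x hxo]
            have : ∑ v ∈ B \ S', lap G w (q v) x = 0 := Finset.sum_eq_zero fun v hv =>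
              (hq v (hsub hv)).2.2.2.2.1 x hxo (fun h => (Finset.mem_sdiff.mp hv).2 (h ▸ hx))
            rw [this]
            simp
  have hfin := key k o S (Finset.Subset.refl _) hoS
  refine hfin.trans (le_of_eq ?_)
  unfold ctPt
  have hz : ∑ v ∈ B \ S, q v o = 0 := Finset.sum_eq_zero fun v hv => (hq v hv).1
  rw [hz, h0, hg]
  ring

end Pool.Agent.H800
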