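import Pool.Agent.H857.EF.Core

/-!
# Transitivity on the slopes from the irreducibility of the real Weil polynomial
-/

set_option autoImplicit false

namespace Pool.Agent.H800.EF

open Module Polynomial Pool.Agent.W521.Descent Pool.Agent.W521.Density Pool.Agent.W521.Count
  Pool.Agent.X297.UB Pool.Agent.H857.PB Pool.Agent.H857.PA Pool.Agent.H857.HK Pool.Agent.H857.EF

lemma irr_map {P : ℤ[X]} (hm : P.Monic) (hi : Irreducible P) :
    Irreducible (P.map (algebraMap ℤ ℚ)) :=
  (hm.irreducible_iff_irreducible_map_fraction_map (K := ℚ)).1 hi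

theorem s2b : S2b := by
  intro p hp a ha x _ hirr
  set q : ℕ := p ^ a with hq
  have hq0 : q ≠ 0 := pow_ne_zero _ hp.out.ne_zero
  have hqC : (q : ℂ) ≠ 0 := by exact_mod_cast hq0
  set P : ℤ[X] := mkPoly 4 x with hP
  have hPm : P.Monic := mkPoly_monic 4 x
  have hirrQ : Irreducible (P.map (algebraMap ℤ ℚ)) := irr_map hPm hirr
  have hprod : P.map (algebraMap ℤ ℂ) =
      ∏ j, (Polynomial.X - C (labA q 4 x j + labB q 4 x j)) := by
    rw [← lab_hp, hp_eq_map]
  have hAB : ∀ i, labA q 4 x i * labB q 4 x i = q := lab_mul q 4 x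
  have hA0 : ∀ i, labA q 4 x i ≠ 0 := by
    intro i h0
    have h1 := hAB i
    rw [h0, zero_mul] at h1
    exact hqC h1.symm
  refine ⟨?_, ?_⟩
  · have hsep : (P.map (algebraMap ℤ ℚ)).Separable := hirrQ.separable
    have h1 : (P.map (algebraMap ℤ ℂ)).Separable := by
      have h2 : P.map (algebraMap ℤ ℂ) = (P.map (algebraMap ℤ ℚ)).map (algebraMap ℚ ℂ) := by
        rw [Polynomial.map_map]
        congr 1
      rw [h2]
      exact hsep.map
    rw [hprod] at h1
    exact Polynomial.separable_prod_X_sub_C_iff.1 h1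
  · intro i j l hl
    obtain ⟨β, τ, hβ, hl⟩ := hl
    have hβ0 : ∀ k, β k ≠ 0 := by
      intro k h0
      apply hA0 k
      rw [← hβ k, h0]
      rfl
    set t : Fin 4 → QB := fun k => β k + (q : QB) / β k with ht
    have htC : ∀ k, ((t k : QB) : ℂ) = labA q 4 x k + labB q 4 x k := by
      intro k
      have h1 : ((t k : QB) : ℂ) = (β k : ℂ) + (q : ℂ) / (β k : ℂ) := by
        rw [ht]
        push_cast
        rfl
      rw [h1, hβ k]
      congr 1
      rw [div_eq_iff (hA0 k), mul_comm]
      exact (hAB k).symm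
    have hroot : ∀ k, aeval (t k) (P.map (algebraMap ℤ ℚ)) = 0 := by
      intro k
      apply (algebraMap QB ℂ).injective
      rw [map_zero]
      have h1 : algebraMap QB ℂ (aeval (t k) (P.map (algebraMap ℤ ℚ))) =
          eval ((t k : QB) : ℂ) (P.map (algebraMap ℤ ℂ)) := by
        rw [aeval_def, eval₂_map, Polynomial.hom_eval₂, eval_map]
        congr 1
      rw [h1, hprod, eval_prod, Finset.prod_eq_zero (Finset.mem_univ k)]
      rw [htC k]
      simp
    have hmin : ∀ k, minpoly ℚ (t k) = P.map (algebraMap ℤ ℚ) := by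
      intro k
      exact (minpoly.eq_of_irreducible_of_monic hirrQ (hroot k) (hPm.map _)).symm
    have hnorm : Normal ℚ QB := by
      have h := algebraicClosure.isAlgClosure ℚ ℂ
      exact @IsAlgClosure.normal ℚ (algebraicClosure ℚ ℂ) _ _ (algebraicClosure ℚ ℂ).algebra' h
    obtain ⟨σ, hσ⟩ : ∃ σ : QB ≃ₐ[ℚ] QB, σ (t j) = t i := by
      refine minpoly.exists_algEquiv_of_root (hnorm.isIntegral (t i)).isAlgebraic ?_
      rw [hmin i, hroot j]
    have hqa : slp p (τ ((q : QB))) = a := by
      rw [map_natCast, hq]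
      push_cast
      rw [slp_pow, slp_p, mul_one]
    have hσβ : σ (β j) = β i ∨ σ (β j) = (q : QB) / β i := by
      have h0 : σ (β j) ≠ 0 := by
        rw [Ne, map_eq_zero]
        exact hβ0 j
      have h1 : σ (β j) + (q : QB) / σ (β j) = β i + (q : QB) / β i := by
        have h2 := hσ
        rw [ht] at h2
        simpa [map_add, map_div₀, map_natCast] using h2
      have h3 : (σ (β j) - β i) * (σ (β j) - (q : QB) / β i) = 0 := by
        have h4 : β i * ((q : QB) / β i) = q := mul_div_cancel₀ _ (hβ0 i)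
        have h5 : σ (β j) * ((q : QB) / σ (β j)) = q := mul_div_cancel₀ _ h0
        linear_combination σ (β j) * h1 - h5 + h4
      rcases mul_eq_zero.1 h3 with h4 | h4
      · exact Or.inl (sub_eq_zero.1 h4)
      · exact Or.inr (sub_eq_zero.1 h4)
    refine ⟨fun k => slp p (τ (σ (β k))) / a - 1 / 2, ?_, ?_⟩
    · exact ⟨β, τ.comp (σ : QB →ₐ[ℚ] QB), hβ, fun k => rfl⟩
    · have ha' : (a : ℝ) ≠ 0 := by exact_mod_cast ha.ne'
      rcases hσβ with h | h
      · beta_reduce
        rw [h, hl i]
      · beta_reduce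
        have hτβ : τ (β i) ≠ 0 := by
          rw [Ne, map_eq_zero]
          exact hβ0 i
        have hτq : τ ((q : QB) / β i) ≠ 0 := by
          rw [Ne, map_eq_zero]
          exact div_ne_zero (by exact_mod_cast hq0) (hβ0 i)
        have h1 : slp p (τ ((q : QB) / β i)) = a - slp p (τ (β i)) := by
          have h2 : τ ((q : QB) / β i) * τ (β i) = τ (q : QB) := by
            rw [← map_mul, div_mul_cancel₀ _ (hβ0 i)]
          have h3 := slp_mul hτq hτβ
          rw [h2, hqa] at h3
          linarith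
        rw [h, h1, hl i]
        have h4 : (a - slp p (τ (β i))) / (a : ℝ) - 1 / 2 =
            -(slp p (τ (β i)) / a - 1 / 2) := by
          field_simp
          ring
        rw [h4, abs_neg]

end Pool.Agent.H800.EF

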