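import Pool.Agent.H800.TiL7A_M

set_option autoImplicit false

/-!
# Project Ti, part L7A: Laplace transform of the second kernel after the commutators
-/

namespace Pool.Agent.H800.L7A

open MeasureTheory Set Filter Topology Complex
open Pool.Agent.N275.QD (Rf Kf Gf Gr Hh)
open Pool.Agent.H235.Ti
open scoped Real ComplexConjugate

theorem z_re (x y : ℝ) : ((x : ℂ) + (y : ℂ) * I).re = x := by simp
theorem z_im (x y : ℝ) : ((x : ℂ) + (y : ℂ) * I).im = y := by simp

theorem norm_sq_eq (x y : ℝ) : ‖(x : ℂ) + (y : ℂ) * I‖ ^ 2 = x ^ 2 + y ^ 2 := by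
  rw [← Complex.normSq_eq_norm_sq, Complex.normSq_apply, z_re, z_im]; ring

/-- the argument of a point near the positive real axis -/
theorem arg_bd {x y : ℝ} (hx : 0 < x) (hy : 0 < y) :
    0 ≤ arg ((x : ℂ) + (y : ℂ) * I) ∧ arg ((x : ℂ) + (y : ℂ) * I) < π / 2 := by
  refine ⟨Complex.arg_nonneg_iff.2 (by rw [z_im]; exact hy.le), ?_⟩
  have := Complex.abs_arg_lt_pi_div_two_iff.2 (Or.inl (by rw [z_re]; exact hx) :
    0 < ((x : ℂ) + (y : ℂ) * I).re ∨ _)
  exact (le_abs_self _).trans_lt this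

theorem arg_lt {x y a η β : ℝ} (ha : 0 < a) (hx : a ≤ x) (hy : 0 < y) (hyη : y ≤ η)
    (hβ0 : 0 < β) (hβ : β < π / 2) (hη : η < a * Real.cos β) :
    arg ((x : ℂ) + (y : ℂ) * I) < π / 2 - β := by
  by_contra hcon
  push Not at hcon
  have hb := arg_bd (ha.trans_le hx) hy
  have h1 : Real.sin (π / 2 - β) ≤ Real.sin (arg ((x : ℂ) + (y : ℂ) * I)) :=
    Real.sin_le_sin_of_le_of_le_pi_div_two (by linarith) hb.2.le hcon
  rw [Real.sin_pi_div_two_sub, Complex.sin_arg, z_im] at h1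
  have hn : a ≤ ‖(x : ℂ) + (y : ℂ) * I‖ := by
    calc a ≤ x := hx
      _ = ((x : ℂ) + (y : ℂ) * I).re := (z_re x y).symm
      _ ≤ _ := Complex.re_le_norm _
  rw [le_div_iff₀ (ha.trans_le hn)] at h1
  have hc : 0 < Real.cos β := Real.cos_pos_of_mem_Ioo ⟨by linarith, hβ⟩
  nlinarith

/-- integral representation of products -/
theorem Kprod (hL3 : S_L3) {t X X' y y' : ℝ} (μ : ℝ) (ht : 0 < t) (hX : 0 < X) (hX' : 0 < X')
    (hy : 0 < y) (hy' : 0 < y') (hyy : y * y' < X * X') :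
    Kf μ (‖(X : ℂ) + (y : ℂ) * I‖ * ‖(X' : ℂ) + (y' : ℂ) * I‖ / (2 * t)) *
      (Real.sinh (arg ((X : ℂ) + (y : ℂ) * I) * μ) * Real.sinh (arg ((X' : ℂ) + (y' : ℂ) * I) * μ)) =
    1 / 2 * ((∫ s in Ioi (0 : ℝ), Real.exp (-(1 / (2 * t) * (X * X' - y * y') * Real.cosh s)) *
        Real.cos (1 / (2 * t) * (X * y' + X' * y) * Real.sinh s) * Real.cos (μ * s)) -
      ∫ s in Ioi (0 : ℝ), Real.exp (-(1 / (2 * t) * (X * X' + y * y') * Real.cosh s)) *
        Real.cos (1 / (2 * t) * (X' * y - X * y') * Real.sinh s) * Real.cos (μ * s)) := by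
  set Z : ℂ := (X : ℂ) + (y : ℂ) * I with hZ
  set W : ℂ := (X' : ℂ) + (y' : ℂ) * I with hW
  have hZre : Z.re = X := z_re _ _
  have hZim : Z.im = y := z_im _ _
  have hWre : W.re = X' := z_re _ _
  have hWim : W.im = y' := z_im _ _
  have hZ0 : Z ≠ 0 := by intro h; rw [h] at hZre; simp at hZre; linarith
  have hW0 : W ≠ 0 := by intro h; rw [h] at hWre; simp at hWre; linarith
  have aZ := arg_bd hX hy
  have aW := arg_bd hX' hy'
  rw [← hZ] at aZ
  rw [← hW] at aW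
  have hκ : 0 < 1 / (2 * t) := by positivity
  have r1 : (Z * W).re = X * X' - y * y' := by rw [Complex.mul_re, hZre, hZim, hWre, hWim]
  have i1 : (Z * W).im = X * y' + X' * y := by rw [Complex.mul_im, hZre, hZim, hWre, hWim]; ring
  have r2 : (Z * conj W).re = X * X' + y * y' := by
    rw [Complex.mul_re, Complex.conj_re, Complex.conj_im, hZre, hZim, hWre, hWim]; ring
  have i2 : (Z * conj W).im = X' * y - X * y' := by
    rw [Complex.mul_im, Complex.conj_re, Complex.conj_im, hZre, hZim, hWre, hWim]; ring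
  have a1 : arg (Z * W) = arg Z + arg W :=
    Complex.arg_mul hZ0 hW0 ⟨by have := Real.pi_pos; linarith [aZ.1, aW.1], by linarith [aZ.2, aW.2]⟩
  have aC : arg (conj W) = -arg W := by
    rw [Complex.arg_conj, if_neg]
    intro h; have := Real.pi_pos; linarith [aW.2]
  have hC0 : conj W ≠ 0 := by simpa using hW0
  have a2 : arg (Z * conj W) = arg Z - arg W := by
    rw [Complex.arg_mul hZ0 hC0 (by rw [aC]; exact ⟨by have := Real.pi_pos; linarith [aZ.1, aW.2],
      by have := Real.pi_pos; linarith [aZ.2, aW.1]⟩), aC, sub_eq_add_neg]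
  have l1 := (hL3 μ (1 / (2 * t)) (Z * W) hκ (by rw [r1]; linarith)).2.2
  have l2 := (hL3 μ (1 / (2 * t)) (Z * conj W) hκ
    (by rw [r2]; have := mul_pos hX hX'; have := mul_pos hy hy'; linarith)).2.2
  rw [norm_mul, a1, r1, i1] at l1
  rw [norm_mul, Complex.norm_conj, a2, r2, i2] at l2
  rw [← l1, ← l2, add_mul, sub_mul, Real.cosh_add, Real.cosh_sub]
  have e : ‖Z‖ * ‖W‖ / (2 * t) = 1 / (2 * t) * (‖Z‖ * ‖W‖) := by ring
  rw [e]
  ring

theorem Pe_re (d y y' t u x x' : ℝ) :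
    (Pe d y y' t u x x').re =
      Real.exp (-(((d - x) ^ 2 + y ^ 2 + (d - x') ^ 2 + y' ^ 2) / (4 * t))) *
      (Real.exp (-(1 / (2 * t) * ((d - x) * (d - x') - y * y') * Real.cosh u)) *
        Real.cos (1 / (2 * t) * ((d - x) * y' + (d - x') * y) * Real.sinh u)) := by
  unfold Pe
  rw [Complex.exp_re]
  simp only [Complex.add_re, Complex.ofReal_re, Complex.mul_re, Complex.I_re, mul_zero,
    Complex.ofReal_im, Complex.I_im, mul_one, sub_self, add_zero, Complex.add_im, Complex.mul_im,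
    zero_add]
  rw [← mul_assoc, ← Real.exp_add]
  congr 1
  · congr 1
    by_cases ht : t = 0
    · subst ht; simp
    · field_simp; ring
  · congr 1; ring

theorem intg (hL3 : S_L3) {κ a : ℝ} (hκ : 0 < κ) (ha : 0 < a) {g : ℝ → ℝ} (hg : Measurable g)
    (hg1 : ∀ s, |g s| ≤ 1) :
    IntegrableOn (fun s => Real.exp (-(κ * a * Real.cosh s)) * g s) (Ioi 0) := by
  have h := (hL3 0 κ (a : ℂ) hκ (by simpa using ha)).1
  simp only [Complex.ofReal_re] at h
  refine Integrable.mono' h ?_ (Eventually.of_forall fun s => ?_)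
  · exact (by fun_prop : Measurable fun s => Real.exp (-(κ * a * Real.cosh s)) * g s).aestronglyMeasurable
  · rw [norm_mul, Real.norm_eq_abs, Real.norm_eq_abs, abs_of_pos (Real.exp_pos _)]
    exact mul_le_of_le_one_right (Real.exp_pos _).le (hg1 s)

theorem cos_cos_le (a b : ℝ) : |Real.cos a * Real.cos b| ≤ 1 := by
  rw [abs_mul]
  exact mul_le_one₀ (Real.abs_cos_le_one _) (abs_nonneg _) (Real.abs_cos_le_one _)

theorem rep (hL3 : S_L3) {β d y y' η t x x' : ℝ} (hβ0 : 0 < β) (hβ : β < π / 2) (hd : 0 < d)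
    (hy : 0 < y) (hyη : y ≤ η) (hy' : 0 < y') (hyη' : y' ≤ η) (hη : η ≤ d / 14) (ht : 0 < t)
    (hx : x ∈ Ioo (d / 7) (6 * d / 7)) (hx' : x' ∈ Ioo (d / 7) (6 * d / 7)) :
    GJ β d t ((x : ℂ) + (y : ℂ) * I) ((x' : ℂ) + (y' : ℂ) * I) =
      ∫ ω, E0 β d y y' t ω x x' ∂mq := by
  have ha : |y| ≤ η := by rwa [abs_of_pos hy]
  have ha' : |y'| ≤ η := by rwa [abs_of_pos hy']
  obtain ⟨K, hK⟩ := md_omega hβ0 hβ hd ha ha' hη
  have hint := ((hK t ht).out1 isOpen_Ioo hx hx').1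
  unfold mq at hint ⊢
  rw [integral_prod _ hint]
  have cz : ∀ a b : ℝ, (d : ℂ) - conj ((a : ℂ) + (b : ℂ) * I) = ((d - a : ℝ) : ℂ) + (b : ℂ) * I := by
    intro a b
    simp only [map_add, map_mul, Complex.conj_ofReal, Complex.conj_I]
    push_cast; ring
  unfold GJ Gf
  rw [cz, cz, norm_sq_eq, norm_sq_eq, ← integral_const_mul]
  refine integral_congr_ae (Eventually.of_forall fun μ => ?_)
  have hX : 0 < d - x := by have := hx.2; linarith
  have hX' : 0 < d - x' := by have := hx'.2; linarith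
  have hyy : y * y' < (d - x) * (d - x') := by
    have h1 : d / 7 ≤ d - x := by have := hx.2; linarith
    have h2 : d / 7 ≤ d - x' := by have := hx'.2; linarith
    nlinarith
  have hk := Kprod hL3 μ ht hX hX' hy hy' hyy
  have hκ : 0 < 1 / (2 * t) := by positivity
  simp only
  have i1 : IntegrableOn (fun s => Real.exp (-(1 / (2 * t) * ((d - x) * (d - x') - y * y') *
      Real.cosh s)) * (Real.cos (1 / (2 * t) * ((d - x) * y' + (d - x') * y) * Real.sinh s) *
        Real.cos (μ * s))) (Ioi 0) :=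
    intg hL3 hκ (by linarith) (by fun_prop) (fun s => cos_cos_le _ _)
  have i2 : IntegrableOn (fun s => Real.exp (-(1 / (2 * t) * ((d - x) * (d - x') + y * y') *
      Real.cosh s)) * (Real.cos (1 / (2 * t) * ((d - x') * y - (d - x) * y') * Real.sinh s) *
        Real.cos (μ * s))) (Ioi 0) :=
    intg hL3 hκ (by nlinarith [mul_pos hX hX', mul_pos hy hy']) (by fun_prop)
      (fun s => cos_cos_le _ _)
  have hE : ∀ u : ℝ, E0 β d y y' t (μ, u) x x' = Rf β μ / (2 * π ^ 2 * t) *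
      Real.exp (-(((d - x) ^ 2 + y ^ 2 + (d - x') ^ 2 + y' ^ 2) / (4 * t))) *
      (Real.exp (-(1 / (2 * t) * ((d - x) * (d - x') - y * y') *
      Real.cosh u)) * (Real.cos (1 / (2 * t) * ((d - x) * y' + (d - x') * y) * Real.sinh u) *
        Real.cos (μ * u)) - Real.exp (-(1 / (2 * t) * ((d - x) * (d - x') + y * y') *
      Real.cosh u)) * (Real.cos (1 / (2 * t) * ((d - x') * y - (d - x) * y') * Real.sinh u) *
        Real.cos (μ * u))) := by
    intro u
    unfold E0 cc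
    rw [Pe_re, Pe_re]
    have e1 : (d - x) * (d - x') - y * -y' = (d - x) * (d - x') + y * y' := by ring
    have e2 : (d - x) * -y' + (d - x') * y = (d - x') * y - (d - x) * y' := by ring
    rw [e1, e2, neg_sq]
    ring
  rw [integral_congr_ae (Eventually.of_forall hE), integral_const_mul, integral_sub i1 i2]
  have m1 : ∀ (f : ℝ → ℝ) (g : ℝ → ℝ) (h : ℝ → ℝ), ∫ s in Ioi (0 : ℝ), f s * (g s * h s) =
      ∫ s in Ioi (0 : ℝ), f s * g s * h s := by
    intro f g h; simp only [mul_assoc]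
  rw [m1, m1]
  have e3 : (x - d) ^ 2 = (d - x) ^ 2 := by ring
  rw [mul_right_comm (Kf _ _), hk]
  have e4 : (d - x) ^ 2 + y ^ 2 + ((d - x') ^ 2 + y' ^ 2) =
      (d - x) ^ 2 + y ^ 2 + (d - x') ^ 2 + y' ^ 2 := by ring
  rw [e4]
  have hπ := Real.pi_pos
  field_simp

/-! ## The right hand side -/

/-- the modes -/
noncomputable def ev (d κ y ν x : ℝ) : ℝ := ∫ s in Ioi (0 : ℝ),
  Real.exp (-(κ * (d - x) * Real.cosh s)) * (Real.sin (κ * y * Real.sinh s) * Real.sin (ν * s))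

/-- derivative -/
noncomputable def ew (d κ y ν x : ℝ) : ℝ := ∫ s in Ioi (0 : ℝ),
  (κ * Real.cosh s * Real.exp (-(κ * (d - x) * Real.cosh s))) *
    (Real.sin (κ * y * Real.sinh s) * Real.sin (ν * s))

theorem sin_sin_le (a b : ℝ) : |Real.sin a * Real.sin b| ≤ 1 := by
  rw [abs_mul]
  exact mul_le_one₀ (Real.abs_sin_le_one _) (abs_nonneg _) (Real.abs_sin_le_one _)

theorem ev_der (hL3 : S_L3) {d κ : ℝ} (hd : 0 < d) (hκ : 0 < κ) : ∃ M : ℝ, 0 ≤ M ∧
    ∀ y ν x : ℝ, x ∈ Ioo (d / 7) (6 * d / 7) → |ev d κ y ν x| ≤ M ∧ |ew d κ y ν x| ≤ M ∧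
      IntegrableOn (fun s => Real.exp (-(κ * (d - x) * Real.cosh s)) *
        (Real.sin (κ * y * Real.sinh s) * Real.sin (ν * s))) (Ioi 0) ∧
      IntegrableOn (fun s => (κ * Real.cosh s * Real.exp (-(κ * (d - x) * Real.cosh s))) *
        (Real.sin (κ * y * Real.sinh s) * Real.sin (ν * s))) (Ioi 0) ∧
      HasDerivAt (ev d κ y ν) (ew d κ y ν x) x := by
  have hi : IntegrableOn (fun s => (1 + 14 / d) * Real.exp (-(κ * (d / 14) * Real.cosh s)))
      (Ioi 0) := by
    have h := (hL3 0 κ ((d / 14 : ℝ) : ℂ) hκ (by simpa using by linarith)).1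
    simp only [Complex.ofReal_re] at h
    exact h.const_mul _
  refine ⟨∫ s in Ioi (0 : ℝ), (1 + 14 / d) * Real.exp (-(κ * (d / 14) * Real.cosh s)),
    integral_nonneg fun s => by positivity, fun y ν x hx => ?_⟩
  have key : ∀ s, ∀ x ∈ Ioo (d / 7) (6 * d / 7),
      Real.exp (-(κ * (d - x) * Real.cosh s)) ≤
        (1 + 14 / d) * Real.exp (-(κ * (d / 14) * Real.cosh s)) ∧
      κ * Real.cosh s * Real.exp (-(κ * (d - x) * Real.cosh s)) ≤
        (1 + 14 / d) * Real.exp (-(κ * (d / 14) * Real.cosh s)) := by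
    intro s x hx
    have hc := Real.cosh_pos s
    have hX : d / 7 ≤ d - x := by have := hx.2; linarith
    set w := κ * Real.cosh s with hw
    have hw0 : 0 < w := by positivity
    have e1 : Real.exp (-(κ * (d - x) * Real.cosh s)) ≤
        Real.exp (-(w * (d / 14))) * Real.exp (-(w * (d / 14))) := by
      rw [← Real.exp_add]
      apply Real.exp_le_exp.2
      have : κ * (d - x) * Real.cosh s = w * (d - x) := by rw [hw]; ring
      rw [this]
      nlinarith
    have e2 : Real.exp (-(κ * (d / 14) * Real.cosh s)) = Real.exp (-(w * (d / 14))) := by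
      congr 1; rw [hw]; ring
    rw [e2]
    have hp := Real.exp_pos (-(w * (d / 14)))
    have h1 : Real.exp (-(w * (d / 14))) ≤ 1 := Real.exp_le_one_iff.2 (by
      have : 0 < w * (d / 14) := by positivity
      linarith)
    have h2 : w * Real.exp (-(w * (d / 14))) ≤ 14 / d := by
      have h3 : w * (d / 14) ≤ Real.exp (w * (d / 14)) := by
        have := Real.add_one_le_exp (w * (d / 14)); linarith
      rw [Real.exp_neg, ← div_eq_mul_inv, div_le_div_iff₀ (Real.exp_pos _) hd]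
      linarith
    have h4 : 0 < 14 / d := by positivity
    constructor
    · refine e1.trans (mul_le_mul_of_nonneg_right (by linarith) hp.le)
    · refine (mul_le_mul_of_nonneg_left e1 hw0.le).trans ?_
      rw [← mul_assoc]
      exact mul_le_mul_of_nonneg_right (by linarith) hp.le
  have b0 : ∀ s, ∀ x ∈ Ioo (d / 7) (6 * d / 7), |Real.exp (-(κ * (d - x) * Real.cosh s)) *
      (Real.sin (κ * y * Real.sinh s) * Real.sin (ν * s))| ≤
      (1 + 14 / d) * Real.exp (-(κ * (d / 14) * Real.cosh s)) := by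
    intro s x hx
    rw [abs_mul, abs_of_pos (Real.exp_pos _)]
    exact (mul_le_of_le_one_right (Real.exp_pos _).le (sin_sin_le _ _)).trans (key s x hx).1
  have b1 : ∀ s, ∀ x ∈ Ioo (d / 7) (6 * d / 7),
      |(κ * Real.cosh s * Real.exp (-(κ * (d - x) * Real.cosh s))) *
      (Real.sin (κ * y * Real.sinh s) * Real.sin (ν * s))| ≤
      (1 + 14 / d) * Real.exp (-(κ * (d / 14) * Real.cosh s)) := by
    intro s x hx
    have hc := Real.cosh_pos s
    have hp : 0 < κ * Real.cosh s * Real.exp (-(κ * (d - x) * Real.cosh s)) := by positivity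
    rw [abs_mul, abs_of_pos hp]
    exact (mul_le_of_le_one_right hp.le (sin_sin_le _ _)).trans (key s x hx).2
  have hder := der (m := volume.restrict (Ioi (0 : ℝ))) isOpen_Ioo
    (f := fun s x => Real.exp (-(κ * (d - x) * Real.cosh s)) *
      (Real.sin (κ * y * Real.sinh s) * Real.sin (ν * s)))
    (f' := fun s x => (κ * Real.cosh s * Real.exp (-(κ * (d - x) * Real.cosh s))) *
      (Real.sin (κ * y * Real.sinh s) * Real.sin (ν * s)))
    (B := fun s => (1 + 14 / d) * Real.exp (-(κ * (d / 14) * Real.cosh s)))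
    (fun x _ => (by fun_prop : Measurable fun s => Real.exp (-(κ * (d - x) * Real.cosh s)) *
      (Real.sin (κ * y * Real.sinh s) * Real.sin (ν * s))).aestronglyMeasurable)
    (fun x _ => (by fun_prop : Measurable fun s =>
      (κ * Real.cosh s * Real.exp (-(κ * (d - x) * Real.cosh s))) *
      (Real.sin (κ * y * Real.sinh s) * Real.sin (ν * s))).aestronglyMeasurable)
    (Eventually.of_forall b0) (Eventually.of_forall b1) (Eventually.of_forall fun s x _ => ?_) hi hx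
  · refine ⟨?_, ?_, hder.1, hder.2.1, hder.2.2⟩
    · rw [← Real.norm_eq_abs]
      exact norm_integral_le_of_norm_le hi (Eventually.of_forall fun s => b0 s x hx)
    · rw [← Real.norm_eq_abs]
      exact norm_integral_le_of_norm_le hi (Eventually.of_forall fun s => b1 s x hx)
  · have h0 : HasDerivAt (fun x : ℝ => -(κ * (d - x) * Real.cosh s)) (κ * Real.cosh s) x := by
      have h0 : HasDerivAt (fun x : ℝ => d - x) (-1) x := by
        simpa using (hasDerivAt_id x).const_sub d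
      refine (((h0.const_mul κ).mul_const (Real.cosh s)).neg).congr_deriv ?_
      ring
    refine (h0.exp.mul_const _).congr_deriv ?_
    ring

theorem meas_ev (d κ y x : ℝ) : StronglyMeasurable (fun ν => ev d κ y ν x) := by
  unfold ev
  exact StronglyMeasurable.integral_prod_right (f := fun ν s =>
    Real.exp (-(κ * (d - x) * Real.cosh s)) * (Real.sin (κ * y * Real.sinh s) * Real.sin (ν * s)))
    (by fun_prop : Measurable (Function.uncurry fun ν s =>
    Real.exp (-(κ * (d - x) * Real.cosh s)) *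
      (Real.sin (κ * y * Real.sinh s) * Real.sin (ν * s)))).stronglyMeasurable

theorem meas_ew (d κ y x : ℝ) : StronglyMeasurable (fun ν => ew d κ y ν x) := by
  unfold ew
  exact StronglyMeasurable.integral_prod_right (f := fun ν s =>
    (κ * Real.cosh s * Real.exp (-(κ * (d - x) * Real.cosh s))) *
      (Real.sin (κ * y * Real.sinh s) * Real.sin (ν * s)))
    (by fun_prop : Measurable (Function.uncurry fun ν s =>
    (κ * Real.cosh s * Real.exp (-(κ * (d - x) * Real.cosh s))) *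
      (Real.sin (κ * y * Real.sinh s) * Real.sin (ν * s)))).stronglyMeasurable

theorem cn_eq (hL3 : S_L3) {d κ : ℝ} (hd : 0 < d) (hκ : 0 < κ) {z : ℂ} (ν : ℝ)
    (hz : z.re ∈ Ioo (d / 7) (6 * d / 7)) :
    cn d κ ν z = X2 d z.re * ev d κ z.im ν z.re + 2 * X1 d z.re * ew d κ z.im ν z.re := by
  obtain ⟨M, _, hM⟩ := ev_der hL3 hd hκ
  obtain ⟨_, _, i1, i2, _⟩ := hM z.im ν z.re hz
  unfold cn ev ew ms
  rw [← integral_const_mul, ← integral_const_mul, ← integral_add (i1.const_mul _) (i2.const_mul _)]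
  refine integral_congr_ae (Eventually.of_forall fun s => ?_)
  simp only
  ring

/-- the right hand side as a parameter integral -/
theorem md_nu (hL3 : S_L3) {β d κ : ℝ} (y y' : ℝ) (hβ0 : 0 < β) (hβ : β < π / 2) (hd : 0 < d)
    (hκ : 0 < κ) : ∃ D : ℝ → ℝ,
    MD (volume.restrict (Ioi (0 : ℝ))) (Ioo (d / 7) (6 * d / 7))
      (fun ν x x' => 2 / π ^ 2 * (Rf β ν * (ev d κ y ν x * ev d κ y' ν x')))
      (fun ν x x' => 2 / π ^ 2 * (Rf β ν * (ew d κ y ν x * ev d κ y' ν x')))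
      (fun ν x x' => 2 / π ^ 2 * (Rf β ν * (ev d κ y ν x * ew d κ y' ν x')))
      (fun ν x x' => 2 / π ^ 2 * (Rf β ν * (ew d κ y ν x * ew d κ y' ν x'))) D := by
  obtain ⟨M, hM0, hM⟩ := ev_der hL3 hd hκ
  refine ⟨fun ν => 2 / π ^ 2 * (|Rf β ν| * (M * M)), ?_⟩
  have hb : ∀ (ν p q : ℝ), |p| ≤ M → |q| ≤ M →
      |2 / π ^ 2 * (Rf β ν * (p * q))| ≤ 2 / π ^ 2 * (|Rf β ν| * (M * M)) := by
    intro ν p q hp hq
    rw [abs_mul, abs_mul, abs_mul, abs_of_pos (by positivity : (0:ℝ) < 2 / π ^ 2)]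
    gcongr
  have hR := (measurable_Rf β).stronglyMeasurable
  refine ⟨?_, ?_, ?_, ?_, ?_, ?_, ?_, ?_, ?_, ?_, ?_, ?_⟩
  · intro x _ x' _
    exact ((hR.mul ((meas_ev d κ y x).mul (meas_ev d κ y' x'))).const_mul _).aestronglyMeasurable
  · intro x _ x' _
    exact ((hR.mul ((meas_ew d κ y x).mul (meas_ev d κ y' x'))).const_mul _).aestronglyMeasurable
  · intro x _ x' _
    exact ((hR.mul ((meas_ev d κ y x).mul (meas_ew d κ y' x'))).const_mul _).aestronglyMeasurable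
  · intro x _ x' _
    exact ((hR.mul ((meas_ew d κ y x).mul (meas_ew d κ y' x'))).const_mul _).aestronglyMeasurable
  · exact Eventually.of_forall fun ν x hx x' hx' => hb _ _ _ (hM _ _ _ hx).1 (hM _ _ _ hx').1
  · exact Eventually.of_forall fun ν x hx x' hx' => hb _ _ _ (hM _ _ _ hx).2.1 (hM _ _ _ hx').1
  · exact Eventually.of_forall fun ν x hx x' hx' => hb _ _ _ (hM _ _ _ hx).1 (hM _ _ _ hx').2.1
  · exact Eventually.of_forall fun ν x hx x' hx' => hb _ _ _ (hM _ _ _ hx).2.1 (hM _ _ _ hx').2.1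
  · exact Eventually.of_forall fun ν x hx x' hx' =>
      (((hM y ν x hx).2.2.2.2.mul_const _).const_mul _).const_mul _
  · exact Eventually.of_forall fun ν x hx x' hx' =>
      (((hM y' ν x' hx').2.2.2.2.const_mul _).const_mul _).const_mul _
  · exact Eventually.of_forall fun ν x hx x' hx' =>
      (((hM y ν x hx).2.2.2.2.mul_const _).const_mul _).const_mul _
  · exact ((integrable_Rf hβ0 hβ).mul_const _).const_mul _

/-- the two parameter integrals agree -/
theorem agree (hL1 : S_L1) (hL3 : S_L3) {β d y y' η κ x x' : ℝ} (hβ0 : 0 < β) (hβ : β < π / 2)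
    (hd : 0 < d) (hy : 0 < y) (hyη : y ≤ η) (hy' : 0 < y') (hyη' : y' ≤ η) (hη : η ≤ d / 14)
    (hη2 : η < d / 7 * Real.cos β) (hκ : 0 < κ)
    (hx : x ∈ Ioo (d / 7) (6 * d / 7)) (hx' : x' ∈ Ioo (d / 7) (6 * d / 7)) :
    ∫ t in Ioi (0 : ℝ), Real.exp (-(κ ^ 2 * t)) * ∫ ω, E0 β d y y' t ω x x' ∂mq =
      ∫ ν in Ioi (0 : ℝ), 2 / π ^ 2 * (Rf β ν * (ev d κ y ν x * ev d κ y' ν x')) := by
  have hX : 0 < d - x := by have := hx.2; linarith
  have hX' : 0 < d - x' := by have := hx'.2; linarith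
  have hXa : d / 7 ≤ d - x := by have := hx.2; linarith
  have hXa' : d / 7 ≤ d - x' := by have := hx'.2; linarith
  set Z : ℂ := ((d - x : ℝ) : ℂ) + (y : ℂ) * I with hZ
  set W : ℂ := ((d - x' : ℝ) : ℂ) + (y' : ℂ) * I with hW
  have hZre : Z.re = d - x := z_re _ _
  have hZim : Z.im = y := z_im _ _
  have hWre : W.re = d - x' := z_re _ _
  have hWim : W.im = y' := z_im _ _
  have aZ := arg_bd hX hy
  have aW := arg_bd hX' hy'
  have bZ := arg_lt (by positivity) hXa hy hyη hβ0 hβ hη2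
  have bW := arg_lt (by positivity) hXa' hy' hyη' hβ0 hβ hη2
  rw [← hZ] at aZ bZ
  rw [← hW] at aW bW
  have h := (hL1 β 0 κ Z W hβ0 le_rfl (by linarith) hκ (by rw [hZre]; exact hX) (by linarith [aZ.1])
    (by linarith) (by rw [hWre]; exact hX') (by linarith [aW.1]) (by linarith)).2
  have cz : ∀ a b : ℝ, (d : ℂ) - conj ((a : ℂ) + (b : ℂ) * I) = ((d - a : ℝ) : ℂ) + (b : ℂ) * I := by
    intro a b
    simp only [map_add, map_mul, Complex.conj_ofReal, Complex.conj_I]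
    push_cast; ring
  have e1 : ∫ t in Ioi (0 : ℝ), Real.exp (-(κ ^ 2 * t)) * ∫ ω, E0 β d y y' t ω x x' ∂mq =
      ∫ t in Ioi (0 : ℝ), Real.exp (-(κ ^ 2 * t)) * Gr β 0 t Z W := by
    refine setIntegral_congr_fun measurableSet_Ioi fun t ht => ?_
    rw [← rep hL3 hβ0 hβ hd hy hyη hy' hyη' hη ht hx hx']
    congr 1
    unfold GJ Gr
    rw [cz, cz]
    simp [hZ, hW]
  rw [e1, h]
  unfold GH
  rw [← integral_const_mul]
  refine setIntegral_congr_fun measurableSet_Ioi fun ν _ => ?_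
  simp only [add_zero]
  have l1 := (hL3 ν κ Z hκ (by rw [hZre]; exact hX)).2.1
  have l2 := (hL3 ν κ W hκ (by rw [hWre]; exact hX')).2.1
  rw [l1, l2, hZre, hZim, hWre, hWim]
  unfold ev
  simp only [mul_assoc]

/-- the commutators -/
theorem CC_eq {d : ℝ} {G : ℂ → ℂ → ℝ} {g g1 g2 g3 : ℝ → ℝ → ℝ} {J : Set ℝ} {z w : ℂ} (hJ : IsOpen J)
    (hz : z.re ∈ J) (hw : w.re ∈ J)
    (hG : ∀ x ∈ J, ∀ x' ∈ J, G ((x : ℂ) + (z.im : ℂ) * I) ((x' : ℂ) + (w.im : ℂ) * I) = g x x')
    (h1 : HasDerivAt (fun s => g s w.re) (g1 z.re w.re) z.re)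
    (h2 : ∀ x ∈ J, HasDerivAt (fun s => g x s) (g2 x w.re) w.re)
    (h3 : HasDerivAt (fun s => g2 s w.re) (g3 z.re w.re) z.re) :
    CC d G z w = X2 d z.re * (X2 d w.re * g z.re w.re + 2 * X1 d w.re * g2 z.re w.re) +
      2 * X1 d z.re * (X2 d w.re * g1 z.re w.re + 2 * X1 d w.re * g3 z.re w.re) := by
  have inner : ∀ x ∈ J, Cx d (fun x' => G ((x : ℂ) + (z.im : ℂ) * I) ((x' : ℂ) + (w.im : ℂ) * I))
      w.re = X2 d w.re * g x w.re + 2 * X1 d w.re * g2 x w.re := by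
    intro x hx
    simp only [Cx]
    rw [hG x hx _ hw]
    congr 2
    refine HasDerivAt.deriv ((h2 x hx).congr_of_eventuallyEq ?_)
    filter_upwards [hJ.mem_nhds hw] with s hs using hG x hx s hs
  unfold CC
  rw [Cx, inner _ hz]
  congr 2
  refine HasDerivAt.deriv (HasDerivAt.congr_of_eventuallyEq
    ((h1.const_mul (X2 d w.re)).add (h3.const_mul (2 * X1 d w.re))) ?_)
  filter_upwards [hJ.mem_nhds hz] with s hs using inner s hs

theorem lin4 {m : Measure ℝ} {f0 f1 f2 f3 : ℝ → ℝ} (a0 a1 a2 a3 : ℝ) (h0 : Integrable f0 m)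
    (h1 : Integrable f1 m) (h2 : Integrable f2 m) (h3 : Integrable f3 m) :
    ∫ t, (a0 * f0 t + a1 * f1 t + a2 * f2 t + a3 * f3 t) ∂m =
      a0 * ∫ t, f0 t ∂m + a1 * ∫ t, f1 t ∂m + a2 * ∫ t, f2 t ∂m + a3 * ∫ t, f3 t ∂m := by
  have e0 := h0.const_mul a0
  have e1 := h1.const_mul a1
  have e2 := h2.const_mul a2
  have e3 := h3.const_mul a3
  have e01 : Integrable (fun t => a0 * f0 t + a1 * f1 t) m := e0.add e1
  have e012 : Integrable (fun t => a0 * f0 t + a1 * f1 t + a2 * f2 t) m := e01.add e2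
  rw [integral_add e012 e3, integral_add e01 e2, integral_add e0 e1, integral_const_mul,
    integral_const_mul, integral_const_mul, integral_const_mul]

theorem l7a (hL1 : S_L1) (hL3 : S_L3) : S_L7A := by
  intro β d hβ0 hβ hd
  have hc : 0 < Real.cos β := Real.cos_pos_of_mem_Ioo ⟨by linarith, hβ⟩
  have hc1 : Real.cos β ≤ 1 := Real.cos_le_one β
  set η := d / 14 * Real.cos β with hη
  have hη0 : 0 < η := by positivity
  have hη1 : η ≤ d / 14 := by rw [hη]; nlinarith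
  have hη2 : η < d / 7 * Real.cos β := by rw [hη]; nlinarith [mul_pos hd hc]
  refine ⟨η, hη0, ?_⟩
  intro κ z w hκ hz hz0 hw hw0
  have hzJ : z.re ∈ Ioo (d / 7) (6 * d / 7) := by
    have h1 := hz.1; have h2 := hz.2.1
    exact ⟨by linarith, by linarith⟩
  have hwJ : w.re ∈ Ioo (d / 7) (6 * d / 7) := by
    have h1 := hw.1; have h2 := hw.2.1
    exact ⟨by linarith, by linarith⟩
  have hzη : z.im ≤ η := (le_abs_self _).trans hz.2.2
  have hwη : w.im ≤ η := (le_abs_self _).trans hw.2.2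
  obtain ⟨K, hK⟩ := md_omega (y := z.im) (y' := w.im) hβ0 hβ hd hz.2.2 hw.2.2 hη1
  obtain ⟨D, hD⟩ := md_t (y := z.im) (y' := w.im) (κ := κ) hβ0 hβ hd hz.2.2 hw.2.2 hη1 hκ
  obtain ⟨D', hD'⟩ := md_nu hL3 (κ := κ) z.im w.im hβ0 hβ hd hκ
  have hag := fun x hx x' hx' => agree (x := x) (x' := x') hL1 hL3 hβ0 hβ hd hz0 hzη hw0 hwη hη1 hη2
    hκ hx hx'
  have hun := hD.unique isOpen_Ioo hD' hag hzJ hwJ
  have hag0 := hag _ hzJ _ hwJ
  obtain ⟨i0, i1, -⟩ := hD.out1 isOpen_Ioo hzJ hwJ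
  obtain ⟨i2, i3, -⟩ := hD.out3 isOpen_Ioo hzJ hwJ
  obtain ⟨j0, j1, -⟩ := hD'.out1 isOpen_Ioo hzJ hwJ
  obtain ⟨j2, j3, -⟩ := hD'.out3 isOpen_Ioo hzJ hwJ
  have hCC : ∀ t ∈ Ioi (0 : ℝ), Real.exp (-(κ ^ 2 * t)) * CC d (GJ β d t) z w =
      X2 d z.re * X2 d w.re *
        (Real.exp (-(κ ^ 2 * t)) * ∫ ω, E0 β d z.im w.im t ω z.re w.re ∂mq) +
      X2 d z.re * (2 * X1 d w.re) *
        (Real.exp (-(κ ^ 2 * t)) * ∫ ω, E2 β d z.im w.im t ω z.re w.re ∂mq) +
      2 * X1 d z.re * X2 d w.re *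
        (Real.exp (-(κ ^ 2 * t)) * ∫ ω, E1 β d z.im w.im t ω z.re w.re ∂mq) +
      2 * X1 d z.re * (2 * X1 d w.re) *
        (Real.exp (-(κ ^ 2 * t)) * ∫ ω, E3 β d z.im w.im t ω z.re w.re ∂mq) := by
    intro t ht
    have hKt := hK t ht
    rw [CC_eq (G := GJ β d t) (g := fun x x' => ∫ ω, E0 β d z.im w.im t ω x x' ∂mq)
      (g1 := fun x x' => ∫ ω, E1 β d z.im w.im t ω x x' ∂mq)
      (g2 := fun x x' => ∫ ω, E2 β d z.im w.im t ω x x' ∂mq)
      (g3 := fun x x' => ∫ ω, E3 β d z.im w.im t ω x x' ∂mq) isOpen_Ioo hzJ hwJ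
      (fun x hx x' hx' => rep hL3 hβ0 hβ hd hz0 hzη hw0 hwη hη1 ht hx hx')
      (hKt.out1 isOpen_Ioo hzJ hwJ).2.2 (fun x hx => (hKt.out2 isOpen_Ioo hx hwJ).2.2)
      (hKt.out3 isOpen_Ioo hzJ hwJ).2.2]
    ring
  have hI := (((i0.const_mul (X2 d z.re * X2 d w.re)).add
    (i2.const_mul (X2 d z.re * (2 * X1 d w.re)))).add
    (i1.const_mul (2 * X1 d z.re * X2 d w.re))).add
    (i3.const_mul (2 * X1 d z.re * (2 * X1 d w.re)))
  refine ⟨?_, ?_⟩
  · refine (integrableOn_congr_fun hCC measurableSet_Ioi).2 ?_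
    exact hI
  · rw [setIntegral_congr_fun measurableSet_Ioi hCC, lin4 _ _ _ _ i0 i2 i1 i3,
      hag0, hun.1, hun.2.1, hun.2.2, ← lin4 _ _ _ _ j0 j2 j1 j3, ← integral_const_mul]
    refine integral_congr_ae (Eventually.of_forall fun ν => ?_)
    simp only
    rw [cn_eq hL3 hd hκ ν hzJ, cn_eq hL3 hd hκ ν hwJ]
    ring

end Pool.Agent.H800.L7A
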