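import Pool.Agent.H800.TiL7A_MD
import Pool.Agent.H235.Ti.SpecL

set_option autoImplicit false

/-!
# Project Ti, part L7A: the kernel as a superposition of exponentials
-/

namespace Pool.Agent.H800.L7A

open MeasureTheory Set Filter Topology Complex
open Pool.Agent.N275.QD (Rf Kf Gf Gr Hh)
open scoped Real ComplexConjugate

/-- the elementary exponential -/
noncomputable def Pe (d y y' t u x x' : ℝ) : ℂ :=
  Complex.exp (((-(((d - x) ^ 2 + y ^ 2 + (d - x') ^ 2 + y' ^ 2 +
    2 * ((d - x) * (d - x') - y * y') * Real.cosh u) / (4 * t)) : ℝ) : ℂ) +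
    (((((d - x) * y' + (d - x') * y) * Real.sinh u / (2 * t)) : ℝ) : ℂ) * I)

noncomputable def La (d y' t u x x' : ℝ) : ℂ :=
  (((((d - x) + (d - x') * Real.cosh u) / (2 * t)) : ℝ) : ℂ) -
    (((y' * Real.sinh u / (2 * t)) : ℝ) : ℂ) * I

noncomputable def Lb (d y t u x x' : ℝ) : ℂ :=
  (((((d - x') + (d - x) * Real.cosh u) / (2 * t)) : ℝ) : ℂ) -
    (((y * Real.sinh u / (2 * t)) : ℝ) : ℂ) * I

noncomputable def Lc (t u : ℝ) : ℂ := ((-(Real.cosh u / (2 * t)) : ℝ) : ℂ)

noncomputable def P1 (d y y' t u x x' : ℝ) : ℂ := La d y' t u x x' * Pe d y y' t u x x'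
noncomputable def P2 (d y y' t u x x' : ℝ) : ℂ := Lb d y t u x x' * Pe d y y' t u x x'
noncomputable def P3 (d y y' t u x x' : ℝ) : ℂ :=
  (Lc t u + Lb d y t u x x' * La d y' t u x x') * Pe d y y' t u x x'

theorem hasDerivAt_a (d y y' t u x x' : ℝ) :
    HasDerivAt (fun x => -(((d - x) ^ 2 + y ^ 2 + (d - x') ^ 2 + y' ^ 2 +
    2 * ((d - x) * (d - x') - y * y') * Real.cosh u) / (4 * t)))
    (((d - x) + (d - x') * Real.cosh u) / (2 * t)) x := by
  have h0 : HasDerivAt (fun x : ℝ => d - x) (-1) x := by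
    simpa using (hasDerivAt_id x).const_sub d
  have h1 := (((((h0.pow 2).add_const (y ^ 2)).add_const ((d - x') ^ 2)).add_const (y' ^ 2)).add
    ((((h0.mul_const (d - x')).sub_const (y * y')).const_mul 2).mul_const (Real.cosh u))).div_const
      (4 * t) |>.neg
  refine (h1.congr_deriv ?_)
  by_cases ht : t = 0
  · subst ht; simp
  · field_simp; ring

theorem hasDerivAt_a' (d y y' t u x x' : ℝ) :
    HasDerivAt (fun x' => -(((d - x) ^ 2 + y ^ 2 + (d - x') ^ 2 + y' ^ 2 +
    2 * ((d - x) * (d - x') - y * y') * Real.cosh u) / (4 * t)))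
    (((d - x') + (d - x) * Real.cosh u) / (2 * t)) x' := by
  refine (hasDerivAt_a d y' y t u x' x).congr_of_eventuallyEq (Eventually.of_forall fun s => ?_)
  simp only
  ring

theorem hasDerivAt_b (d y y' t u x x' : ℝ) :
    HasDerivAt (fun x => ((d - x) * y' + (d - x') * y) * Real.sinh u / (2 * t))
    (-(y' * Real.sinh u / (2 * t))) x := by
  have h0 : HasDerivAt (fun x : ℝ => d - x) (-1) x := by
    simpa using (hasDerivAt_id x).const_sub d
  have h1 := (((h0.mul_const y').add_const ((d - x') * y)).mul_const (Real.sinh u)).div_const (2 * t)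
  refine (h1.congr_deriv ?_)
  ring

theorem hasDerivAt_b' (d y y' t u x x' : ℝ) :
    HasDerivAt (fun x' => ((d - x) * y' + (d - x') * y) * Real.sinh u / (2 * t))
    (-(y * Real.sinh u / (2 * t))) x' := by
  refine (hasDerivAt_b d y' y t u x' x).congr_of_eventuallyEq (Eventually.of_forall fun s => ?_)
  simp only
  ring

theorem hasDerivAt_Pe (d y y' t u x x' : ℝ) :
    HasDerivAt (fun x => Pe d y y' t u x x') (P1 d y y' t u x x') x := by
  have h := ((hasDerivAt_a d y y' t u x x').ofReal_comp.fun_add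
    ((hasDerivAt_b d y y' t u x x').ofReal_comp.mul_const I)).cexp
  refine h.congr_deriv ?_
  simp only [P1, Pe, La]
  push_cast
  ring

theorem hasDerivAt_Pe' (d y y' t u x x' : ℝ) :
    HasDerivAt (fun x' => Pe d y y' t u x x') (P2 d y y' t u x x') x' := by
  have h := ((hasDerivAt_a' d y y' t u x x').ofReal_comp.fun_add
    ((hasDerivAt_b' d y y' t u x x').ofReal_comp.mul_const I)).cexp
  refine h.congr_deriv ?_
  simp only [P2, Pe, Lb]
  push_cast
  ring

theorem hasDerivAt_P2 (d y y' t u x x' : ℝ) :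
    HasDerivAt (fun x => P2 d y y' t u x x') (P3 d y y' t u x x') x := by
  have h0 : HasDerivAt (fun x : ℝ => ((d - x') + (d - x) * Real.cosh u) / (2 * t))
      (-(Real.cosh u / (2 * t))) x := by
    have h0 : HasDerivAt (fun x : ℝ => d - x) (-1) x := by
      simpa using (hasDerivAt_id x).const_sub d
    refine (((h0.mul_const (Real.cosh u)).const_add (d - x')).div_const (2 * t)).congr_deriv ?_
    ring
  have hLb : HasDerivAt (fun x => Lb d y t u x x') (Lc t u) x :=
    h0.ofReal_comp.sub_const _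
  refine (hLb.mul (hasDerivAt_Pe d y y' t u x x')).congr_deriv ?_
  simp only [P3, P1]
  ring

theorem norm_Pe {d y y' t u x x' η : ℝ} (ht : 0 < t) (hx : x ∈ Ioo (d / 7) (6 * d / 7))
    (hx' : x' ∈ Ioo (d / 7) (6 * d / 7)) (hy : |y| ≤ η) (hy' : |y'| ≤ η) (hη : η ≤ d / 14) :
    ‖Pe d y y' t u x x'‖ ≤ Real.exp (-((d / 7) ^ 2 / 4 * (Real.cosh u / t))) := by
  unfold Pe
  rw [Complex.norm_exp]
  simp only [Complex.add_re, Complex.ofReal_re, Complex.mul_re, Complex.I_re, mul_zero,
    Complex.ofReal_im, Complex.I_im, mul_one, sub_self, add_zero]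
  apply Real.exp_le_exp.2
  rw [neg_le_neg_iff]
  have h1 : (d / 7) ^ 2 / 4 * (Real.cosh u / t) = ((d / 7) ^ 2 * Real.cosh u) / (4 * t) := by
    field_simp
  rw [h1]
  apply div_le_div_of_nonneg_right _ (by positivity)
  have hc := Real.one_le_cosh u
  have hd : 0 < d := by have := hx.1.trans hx.2; linarith
  have hX : d / 7 ≤ d - x := by have := hx.2; linarith
  have hX' : d / 7 ≤ d - x' := by have := hx'.2; linarith
  have hXX : (d / 7) ^ 2 ≤ (d - x) * (d - x') := by nlinarith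
  have hyy : y * y' ≤ (d / 14) ^ 2 := by
    calc y * y' ≤ |y * y'| := le_abs_self _
      _ = |y| * |y'| := abs_mul _ _
      _ ≤ (d / 14) * (d / 14) := mul_le_mul (hy.trans hη) (hy'.trans hη) (abs_nonneg _) (by linarith)
      _ = _ := by ring
  have h2 : (d / 7) ^ 2 ≤ 2 * ((d - x) * (d - x') - y * y') := by nlinarith
  nlinarith [mul_le_mul_of_nonneg_right h2 (by linarith : (0:ℝ) ≤ Real.cosh u), sq_nonneg (d - x),
    sq_nonneg y, sq_nonneg (d - x'), sq_nonneg y']

theorem abs_sinh_le (u : ℝ) : |Real.sinh u| ≤ Real.cosh u := by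
  rw [abs_le]
  constructor
  · have := Real.cosh_add_sinh u; have := Real.exp_pos u; linarith
  · have := Real.cosh_sub_sinh u; have := Real.exp_pos (-u); linarith

theorem norm_La {d y' t u x x' η : ℝ} (ht : 0 < t) (hx : x ∈ Ioo (d / 7) (6 * d / 7))
    (hx' : x' ∈ Ioo (d / 7) (6 * d / 7)) (hy' : |y'| ≤ η) (hη : η ≤ d / 14) :
    ‖La d y' t u x x'‖ ≤ 2 * d * (Real.cosh u / t) := by
  unfold La
  have hc := Real.one_le_cosh u
  have hd : 0 < d := by have := hx.1.trans hx.2; linarith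
  refine (norm_sub_le _ _).trans ?_
  rw [norm_mul, Complex.norm_I, mul_one, Complex.norm_real, Complex.norm_real, Real.norm_eq_abs,
    Real.norm_eq_abs, abs_div, abs_div, abs_mul y', abs_of_pos (by positivity : (0:ℝ) < 2 * t)]
  have h1 : |(d - x) + (d - x') * Real.cosh u| ≤ 2 * d * Real.cosh u := by
    rw [abs_of_nonneg (by have := hx.2; have := hx'.2; nlinarith)]
    have := hx.1; have := hx'.1; nlinarith
  have h2 : |y'| * |Real.sinh u| ≤ d * Real.cosh u :=
    mul_le_mul (by linarith) (abs_sinh_le u) (abs_nonneg _) hd.le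
  rw [← add_div, div_le_iff₀ (by positivity)]
  have h3 : 2 * d * (Real.cosh u / t) * (2 * t) = 4 * d * Real.cosh u := by field_simp; ring
  rw [h3]
  nlinarith

theorem norm_Lb {d y t u x x' η : ℝ} (ht : 0 < t) (hx : x ∈ Ioo (d / 7) (6 * d / 7))
    (hx' : x' ∈ Ioo (d / 7) (6 * d / 7)) (hy : |y| ≤ η) (hη : η ≤ d / 14) :
    ‖Lb d y t u x x'‖ ≤ 2 * d * (Real.cosh u / t) :=
  norm_La ht hx' hx hy hη

theorem norm_Lc {t u : ℝ} (ht : 0 < t) : ‖Lc t u‖ ≤ Real.cosh u / t := by
  unfold Lc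
  have hc := Real.one_le_cosh u
  rw [Complex.norm_real, Real.norm_eq_abs, abs_neg, abs_of_nonneg (by positivity)]
  apply div_le_div_of_nonneg_left (by linarith) ht (by linarith)

/-- the constant -/
theorem exists_K {c d : ℝ} (hc : 0 < c) (hd : 0 < d) : ∃ K : ℝ, 0 < K ∧ ∀ v : ℝ, 0 ≤ v →
    v * ((1 + 2 * d * v + v + 4 * d ^ 2 * v ^ 2) * Real.exp (-(c * v))) ≤ K := by
  have key : ∀ (k : ℕ) (v : ℝ), 0 ≤ v → v ^ k * Real.exp (-(c * v)) ≤ k.factorial / c ^ k := by
    intro k v hv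
    have h := Real.pow_div_factorial_le_exp (c * v) (by positivity) k
    rw [Real.exp_neg, ← div_eq_mul_inv, div_le_iff₀ (Real.exp_pos _)]
    rw [div_le_iff₀ (by positivity)] at h
    rw [mul_pow] at h
    rw [div_mul_eq_mul_div, le_div_iff₀ (by positivity)]
    linarith
  refine ⟨1 / c + (2 * d + 1) * (2 / c ^ 2) + 4 * d ^ 2 * (6 / c ^ 3), by positivity, fun v hv => ?_⟩
  have h1 := key 1 v hv
  have h2 := key 2 v hv
  have h3 := key 3 v hv
  norm_num [Nat.factorial] at h1 h2 h3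
  have e : v * ((1 + 2 * d * v + v + 4 * d ^ 2 * v ^ 2) * Real.exp (-(c * v))) =
      v * Real.exp (-(c * v)) + (2 * d + 1) * (v ^ 2 * Real.exp (-(c * v))) +
        4 * d ^ 2 * (v ^ 3 * Real.exp (-(c * v))) := by ring
  rw [e]
  have h2' := mul_le_mul_of_nonneg_left h2 (by positivity : (0:ℝ) ≤ 2 * d + 1)
  have h3' := mul_le_mul_of_nonneg_left h3 (by positivity : (0:ℝ) ≤ 4 * d ^ 2)
  have h1' : v * Real.exp (-(c * v)) ≤ 1 / c := by simpa using h1
  linarith

/-- all four functions are bounded by the same quantity -/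
theorem bounds {d y y' t u x x' η : ℝ} (ht : 0 < t) (hx : x ∈ Ioo (d / 7) (6 * d / 7))
    (hx' : x' ∈ Ioo (d / 7) (6 * d / 7)) (hy : |y| ≤ η) (hy' : |y'| ≤ η) (hη : η ≤ d / 14) :
    ∀ P ∈ ({Pe d y y' t u x x', P1 d y y' t u x x', P2 d y y' t u x x', P3 d y y' t u x x'} : Set ℂ),
      ‖P‖ ≤ (1 + 2 * d * (Real.cosh u / t) + Real.cosh u / t + 4 * d ^ 2 * (Real.cosh u / t) ^ 2) *
        Real.exp (-((d / 7) ^ 2 / 4 * (Real.cosh u / t))) := by
  have hc := Real.one_le_cosh u
  have hd : 0 < d := by have := hx.1.trans hx.2; linarith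
  have hP := norm_Pe (u := u) ht hx hx' hy hy' hη
  have hA := norm_La (u := u) ht hx hx' hy' hη
  have hB := norm_Lb (u := u) ht hx hx' hy hη
  have hC := norm_Lc (u := u) ht
  set v := Real.cosh u / t with hv
  have hv0 : 0 < v := by positivity
  intro P hPm
  simp only [mem_insert_iff, mem_singleton_iff] at hPm
  rcases hPm with rfl | rfl | rfl | rfl
  · refine hP.trans (le_mul_of_one_le_left (Real.exp_pos _).le ?_)
    have : 0 < 2 * d * v + v + 4 * d ^ 2 * v ^ 2 := by positivity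
    linarith
  · unfold P1
    rw [norm_mul]
    refine mul_le_mul (hA.trans ?_) hP (norm_nonneg _) (by positivity)
    have : 0 < 1 + v + 4 * d ^ 2 * v ^ 2 := by positivity
    linarith
  · unfold P2
    rw [norm_mul]
    refine mul_le_mul (hB.trans ?_) hP (norm_nonneg _) (by positivity)
    have : 0 < 1 + v + 4 * d ^ 2 * v ^ 2 := by positivity
    linarith
  · unfold P3
    rw [norm_mul]
    refine mul_le_mul ((norm_add_le _ _).trans ?_) hP (norm_nonneg _) (by positivity)
    rw [norm_mul]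
    have := mul_le_mul hB hA (norm_nonneg _) (by positivity)
    have h5 : 0 < 1 + 2 * d * v := by positivity
    nlinarith

end Pool.Agent.H800.L7A
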