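import Pool.Agent.H800.TiL7A_E

set_option autoImplicit false

/-!
# Project Ti, part L7A: domination of the superposition of exponentials
-/

namespace Pool.Agent.H800.L7A

open MeasureTheory Set Filter Topology Complex
open Pool.Agent.N275.QD (Rf Kf Gf Gr Hh)
open scoped Real ComplexConjugate

/-- coefficient -/
noncomputable def cc (β t : ℝ) (ω : ℝ × ℝ) : ℝ :=
  Rf β ω.1 * Real.cos (ω.1 * ω.2) / (2 * π ^ 2 * t)

noncomputable def E0 (β d y y' t : ℝ) (ω : ℝ × ℝ) (x x' : ℝ) : ℝ :=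
  cc β t ω * ((Pe d y y' t ω.2 x x').re - (Pe d y (-y') t ω.2 x x').re)
noncomputable def E1 (β d y y' t : ℝ) (ω : ℝ × ℝ) (x x' : ℝ) : ℝ :=
  cc β t ω * ((P1 d y y' t ω.2 x x').re - (P1 d y (-y') t ω.2 x x').re)
noncomputable def E2 (β d y y' t : ℝ) (ω : ℝ × ℝ) (x x' : ℝ) : ℝ :=
  cc β t ω * ((P2 d y y' t ω.2 x x').re - (P2 d y (-y') t ω.2 x x').re)
noncomputable def E3 (β d y y' t : ℝ) (ω : ℝ × ℝ) (x x' : ℝ) : ℝ :=
  cc β t ω * ((P3 d y y' t ω.2 x x').re - (P3 d y (-y') t ω.2 x x').re)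

/-- the measure -/
noncomputable def mq : Measure (ℝ × ℝ) :=
  (volume.restrict (Ioi (0 : ℝ))).prod (volume.restrict (Ioi (0 : ℝ)))

theorem measurable_Rf (β : ℝ) : Measurable (Rf β) := by
  unfold Rf
  fun_prop

theorem measurable_cc (β : ℝ) : Measurable (fun p : ℝ × (ℝ × ℝ) => cc β p.1 p.2) := by
  unfold cc
  have := measurable_Rf β
  fun_prop

theorem measurable_Pe (d y y' x x' : ℝ) :
    Measurable (fun p : ℝ × (ℝ × ℝ) => Pe d y y' p.1 p.2.2 x x') := by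
  unfold Pe
  fun_prop

theorem measurable_P1 (d y y' x x' : ℝ) :
    Measurable (fun p : ℝ × (ℝ × ℝ) => P1 d y y' p.1 p.2.2 x x') := by
  unfold P1 La
  have := measurable_Pe d y y' x x'
  fun_prop

theorem measurable_P2 (d y y' x x' : ℝ) :
    Measurable (fun p : ℝ × (ℝ × ℝ) => P2 d y y' p.1 p.2.2 x x') := by
  unfold P2 Lb
  have := measurable_Pe d y y' x x'
  fun_prop

theorem measurable_P3 (d y y' x x' : ℝ) :
    Measurable (fun p : ℝ × (ℝ × ℝ) => P3 d y y' p.1 p.2.2 x x') := by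
  unfold P3 Lb La Lc
  have := measurable_Pe d y y' x x'
  fun_prop

theorem meas_mul {f g : ℝ × (ℝ × ℝ) → ℂ} (β : ℝ) (hf : Measurable f) (hg : Measurable g) :
    StronglyMeasurable (fun p : ℝ × (ℝ × ℝ) => cc β p.1 p.2 * ((f p).re - (g p).re)) :=
  ((measurable_cc β).mul ((Complex.measurable_re.comp hf).sub
    (Complex.measurable_re.comp hg))).stronglyMeasurable

theorem meas_E0 (β d y y' x x' : ℝ) :
    StronglyMeasurable (fun p : ℝ × (ℝ × ℝ) => E0 β d y y' p.1 p.2 x x') :=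
  meas_mul β (measurable_Pe d y y' x x') (measurable_Pe d y (-y') x x')
theorem meas_E1 (β d y y' x x' : ℝ) :
    StronglyMeasurable (fun p : ℝ × (ℝ × ℝ) => E1 β d y y' p.1 p.2 x x') :=
  meas_mul β (measurable_P1 d y y' x x') (measurable_P1 d y (-y') x x')
theorem meas_E2 (β d y y' x x' : ℝ) :
    StronglyMeasurable (fun p : ℝ × (ℝ × ℝ) => E2 β d y y' p.1 p.2 x x') :=
  meas_mul β (measurable_P2 d y y' x x') (measurable_P2 d y (-y') x x')
theorem meas_E3 (β d y y' x x' : ℝ) :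
    StronglyMeasurable (fun p : ℝ × (ℝ × ℝ) => E3 β d y y' p.1 p.2 x x') :=
  meas_mul β (measurable_P3 d y y' x x') (measurable_P3 d y (-y') x x')

theorem meas_t {f : ℝ × (ℝ × ℝ) → ℝ} (hf : StronglyMeasurable f) (t : ℝ) :
    AEStronglyMeasurable (fun ω => f (t, ω)) mq :=
  (hf.comp_measurable measurable_prodMk_left).aestronglyMeasurable

/-- bound for `Rf` -/
theorem Rf_le {β μ : ℝ} (hβ0 : 0 < β) (hβ : β < π / 2) (hμ : 0 < μ) :
    0 ≤ Rf β μ ∧ Rf β μ ≤ Real.exp (-(π - 2 * β) * μ) := by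
  unfold Rf
  have h1 : 0 < Real.sinh (β * μ) := Real.sinh_pos_iff.2 (by positivity)
  have h2 : 0 < Real.sinh ((π - β) * μ) := Real.sinh_pos_iff.2 (mul_pos (by linarith) hμ)
  refine ⟨(div_pos h1 h2).le, ?_⟩
  rw [div_le_iff₀ h2]
  have e1 : Real.sinh ((π - β) * μ) = Real.sinh (β * μ) * Real.cosh ((π - 2 * β) * μ) +
      Real.cosh (β * μ) * Real.sinh ((π - 2 * β) * μ) := by
    rw [← Real.sinh_add]; congr 1; ring
  have h3 : 0 ≤ Real.sinh ((π - 2 * β) * μ) := Real.sinh_nonneg_iff.2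
    (mul_nonneg (by linarith) hμ.le)
  have h4 : Real.sinh (β * μ) ≤ Real.cosh (β * μ) := (Real.sinh_lt_cosh _).le
  have h5 : Real.sinh (β * μ) * Real.exp ((π - 2 * β) * μ) ≤ Real.sinh ((π - β) * μ) := by
    rw [e1, ← Real.cosh_add_sinh, mul_add]
    have := mul_le_mul_of_nonneg_right h4 h3
    linarith
  have h6 : Real.exp (-(π - 2 * β) * μ) * Real.exp ((π - 2 * β) * μ) = 1 := by
    rw [← Real.exp_add, show -(π - 2 * β) * μ + (π - 2 * β) * μ = 0 by ring, Real.exp_zero]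
  calc Real.sinh (β * μ) = Real.exp (-(π - 2 * β) * μ) *
        (Real.sinh (β * μ) * Real.exp ((π - 2 * β) * μ)) := by
        rw [mul_left_comm, h6, mul_one]
    _ ≤ _ := mul_le_mul_of_nonneg_left h5 (Real.exp_pos _).le

theorem integrable_Rf {β : ℝ} (hβ0 : 0 < β) (hβ : β < π / 2) :
    Integrable (fun μ => |Rf β μ|) (volume.restrict (Ioi (0 : ℝ))) := by
  have h := exp_neg_integrableOn_Ioi 0 (b := π - 2 * β) (by linarith)
  refine Integrable.mono' h (measurable_Rf β).abs.aestronglyMeasurable ?_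
  filter_upwards [ae_restrict_mem measurableSet_Ioi] with μ hμ
  have := Rf_le hβ0 hβ hμ
  rw [Real.norm_eq_abs, abs_abs, abs_of_nonneg this.1]
  exact this.2

theorem integrable_cosh : Integrable (fun u => (Real.cosh u)⁻¹) (volume.restrict (Ioi (0 : ℝ))) := by
  have h := (exp_neg_integrableOn_Ioi 0 (b := 1) one_pos).const_mul 2
  refine Integrable.mono' h (Real.continuous_cosh.measurable.inv).aestronglyMeasurable ?_
  refine Eventually.of_forall fun u => ?_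
  rw [Real.norm_eq_abs, abs_of_pos (inv_pos.2 (Real.cosh_pos u))]
  have h1 : Real.exp u / 2 ≤ Real.cosh u := by
    rw [Real.cosh_eq]; have := Real.exp_pos (-u); linarith
  rw [inv_le_comm₀ (Real.cosh_pos u) (by positivity), neg_one_mul, Real.exp_neg, mul_inv, inv_inv]
  linarith

theorem integrable_B {β : ℝ} (hβ0 : 0 < β) (hβ : β < π / 2) (K : ℝ) :
    Integrable (fun ω : ℝ × ℝ => K * (|Rf β ω.1| * (Real.cosh ω.2)⁻¹)) mq :=
  ((integrable_Rf hβ0 hβ).mul_prod integrable_cosh).const_mul K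

theorem E_bound {K β t N : ℝ} {ω : ℝ × ℝ} {P P' : ℂ} (ht : 0 < t)
    (hP : ‖P‖ ≤ N) (hP' : ‖P'‖ ≤ N) (hN : Real.cosh ω.2 / t * N ≤ K) :
    |cc β t ω * (P.re - P'.re)| ≤ K * (|Rf β ω.1| * (Real.cosh ω.2)⁻¹) := by
  have hc := Real.cosh_pos ω.2
  rw [abs_mul]
  have h1 : |P.re - P'.re| ≤ 2 * N := by
    have := abs_sub P.re P'.re
    have := Complex.abs_re_le_norm P
    have := Complex.abs_re_le_norm P'
    linarith
  have h2 : |cc β t ω| ≤ |Rf β ω.1| * (1 / (2 * t)) := by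
    unfold cc
    rw [abs_div, abs_mul, mul_div_assoc]
    refine mul_le_mul_of_nonneg_left ?_ (abs_nonneg _)
    have h3 : (2 : ℝ) * t ≤ |2 * π ^ 2 * t| := by
      rw [abs_of_pos (by positivity)]
      have : (1 : ℝ) ≤ π ^ 2 := by nlinarith [Real.pi_gt_three]
      nlinarith
    exact div_le_div₀ zero_le_one (Real.abs_cos_le_one _) (by positivity) h3
  have hN0 : 0 ≤ N := (norm_nonneg P).trans hP
  calc |cc β t ω| * |P.re - P'.re| ≤ (|Rf β ω.1| * (1 / (2 * t))) * (2 * N) :=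
        mul_le_mul h2 h1 (abs_nonneg _) (by positivity)
    _ = (Real.cosh ω.2 / t * N) * (|Rf β ω.1| * (Real.cosh ω.2)⁻¹) := by
        field_simp
    _ ≤ K * (|Rf β ω.1| * (Real.cosh ω.2)⁻¹) :=
        mul_le_mul_of_nonneg_right hN (by positivity)

theorem re_deriv {f : ℝ → ℂ} {f' : ℂ} {x : ℝ} (h : HasDerivAt f f' x) :
    HasDerivAt (fun s => (f s).re) f'.re x :=
  (Complex.reCLM.hasFDerivAt.comp_hasDerivAt x h)

theorem E_deriv {f g : ℝ → ℂ} {f' g' : ℂ} {x c : ℝ} (h : HasDerivAt f f' x) (h2 : HasDerivAt g g' x) :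
    HasDerivAt (fun s => c * ((f s).re - (g s).re)) (c * (f'.re - g'.re)) x :=
  ((re_deriv h).sub (re_deriv h2)).const_mul c

theorem md_omega {β d y y' η : ℝ} (hβ0 : 0 < β) (hβ : β < π / 2) (hd : 0 < d) (hy : |y| ≤ η)
    (hy' : |y'| ≤ η) (hη : η ≤ d / 14) : ∃ K : ℝ, ∀ t : ℝ, 0 < t →
    MD mq (Ioo (d / 7) (6 * d / 7)) (E0 β d y y' t) (E1 β d y y' t) (E2 β d y y' t)
      (E3 β d y y' t) (fun ω => K * (|Rf β ω.1| * (Real.cosh ω.2)⁻¹)) := by
  obtain ⟨K, hK0, hK⟩ := exists_K (c := (d / 7) ^ 2 / 4) (d := d) (by positivity) hd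
  refine ⟨K, fun t ht => ?_⟩
  have hy'' : |-y'| ≤ η := by rwa [abs_neg]
  have hb : ∀ ω : ℝ × ℝ, ∀ x ∈ Ioo (d / 7) (6 * d / 7), ∀ x' ∈ Ioo (d / 7) (6 * d / 7),
      |E0 β d y y' t ω x x'| ≤ K * (|Rf β ω.1| * (Real.cosh ω.2)⁻¹) ∧
      |E1 β d y y' t ω x x'| ≤ K * (|Rf β ω.1| * (Real.cosh ω.2)⁻¹) ∧
      |E2 β d y y' t ω x x'| ≤ K * (|Rf β ω.1| * (Real.cosh ω.2)⁻¹) ∧
      |E3 β d y y' t ω x x'| ≤ K * (|Rf β ω.1| * (Real.cosh ω.2)⁻¹) := by
    intro ω x hx x' hx'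
    have h1 := bounds (u := ω.2) ht hx hx' hy hy' hη
    have h2 := bounds (u := ω.2) ht hx hx' hy hy'' hη
    have h3 := hK (Real.cosh ω.2 / t) (div_nonneg (Real.cosh_pos _).le ht.le)
    refine ⟨?_, ?_, ?_, ?_⟩
    · exact E_bound ht (h1 _ (by simp)) (h2 _ (by simp)) h3
    · exact E_bound ht (h1 _ (by simp)) (h2 _ (by simp)) h3
    · exact E_bound ht (h1 _ (by simp)) (h2 _ (by simp)) h3
    · exact E_bound ht (h1 _ (by simp)) (h2 _ (by simp)) h3
  refine ⟨?_, ?_, ?_, ?_, ?_, ?_, ?_, ?_, ?_, ?_, ?_, integrable_B hβ0 hβ K⟩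
  · intro x _ x' _; exact meas_t (meas_E0 β d y y' x x') t
  · intro x _ x' _; exact meas_t (meas_E1 β d y y' x x') t
  · intro x _ x' _; exact meas_t (meas_E2 β d y y' x x') t
  · intro x _ x' _; exact meas_t (meas_E3 β d y y' x x') t
  · exact Eventually.of_forall fun ω x hx x' hx' => (hb ω x hx x' hx').1
  · exact Eventually.of_forall fun ω x hx x' hx' => (hb ω x hx x' hx').2.1
  · exact Eventually.of_forall fun ω x hx x' hx' => (hb ω x hx x' hx').2.2.1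
  · exact Eventually.of_forall fun ω x hx x' hx' => (hb ω x hx x' hx').2.2.2
  · exact Eventually.of_forall fun ω x _ x' _ =>
      E_deriv (hasDerivAt_Pe d y y' t ω.2 x x') (hasDerivAt_Pe d y (-y') t ω.2 x x')
  · exact Eventually.of_forall fun ω x _ x' _ =>
      E_deriv (hasDerivAt_Pe' d y y' t ω.2 x x') (hasDerivAt_Pe' d y (-y') t ω.2 x x')
  · exact Eventually.of_forall fun ω x _ x' _ =>
      E_deriv (hasDerivAt_P2 d y y' t ω.2 x x') (hasDerivAt_P2 d y (-y') t ω.2 x x')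

/-- the Laplace transform in `t` -/
theorem md_t {β d y y' η κ : ℝ} (hβ0 : 0 < β) (hβ : β < π / 2) (hd : 0 < d) (hy : |y| ≤ η)
    (hy' : |y'| ≤ η) (hη : η ≤ d / 14) (hκ : 0 < κ) : ∃ D : ℝ → ℝ,
    MD (volume.restrict (Ioi (0 : ℝ))) (Ioo (d / 7) (6 * d / 7))
      (fun t x x' => Real.exp (-(κ ^ 2 * t)) * ∫ ω, E0 β d y y' t ω x x' ∂mq)
      (fun t x x' => Real.exp (-(κ ^ 2 * t)) * ∫ ω, E1 β d y y' t ω x x' ∂mq)
      (fun t x x' => Real.exp (-(κ ^ 2 * t)) * ∫ ω, E2 β d y y' t ω x x' ∂mq)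
      (fun t x x' => Real.exp (-(κ ^ 2 * t)) * ∫ ω, E3 β d y y' t ω x x' ∂mq) D := by
  obtain ⟨K, hK⟩ := md_omega hβ0 hβ hd hy hy' hη
  refine ⟨fun t => Real.exp (-(κ ^ 2 * t)) * ∫ ω, K * (|Rf β ω.1| * (Real.cosh ω.2)⁻¹) ∂mq, ?_⟩
  have hsf : SFinite mq := by unfold mq; infer_instance
  refine MD.outer (m := mq) (C := fun t ω => K * (|Rf β ω.1| * (Real.cosh ω.2)⁻¹)) isOpen_Ioo ?_
    (by fun_prop) ?_ ?_ (meas_E0 β d y y') (meas_E1 β d y y') (meas_E2 β d y y') (meas_E3 β d y y')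
  · filter_upwards [ae_restrict_mem measurableSet_Ioi] with t ht using hK t ht
  · refine Eventually.of_forall fun t => ?_
    rw [abs_of_pos (Real.exp_pos _)]
  · have h := (exp_neg_integrableOn_Ioi 0 (b := κ ^ 2) (by positivity)).mul_const
      (∫ ω, K * (|Rf β ω.1| * (Real.cosh ω.2)⁻¹) ∂mq)
    refine h.congr (Eventually.of_forall fun t => ?_)
    simp only [neg_mul]

end Pool.Agent.H800.L7A
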