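import Mathlib

set_option autoImplicit false

/-!
# Project Ti, part L7A: mixed derivatives of parameter integrals
-/

namespace Pool.Agent.H800.L7A

open MeasureTheory Set Filter Topology

/-- `F` depends on two real parameters in `J`, with dominated partial derivatives `F1`, `F2` and mixed
derivative `F3` -/
structure MD {Ω : Type} [MeasurableSpace Ω] (m : Measure Ω) (J : Set ℝ)
    (F F1 F2 F3 : Ω → ℝ → ℝ → ℝ) (B : Ω → ℝ) : Prop where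
  m0 : ∀ x ∈ J, ∀ x' ∈ J, AEStronglyMeasurable (fun ω => F ω x x') m
  m1 : ∀ x ∈ J, ∀ x' ∈ J, AEStronglyMeasurable (fun ω => F1 ω x x') m
  m2 : ∀ x ∈ J, ∀ x' ∈ J, AEStronglyMeasurable (fun ω => F2 ω x x') m
  m3 : ∀ x ∈ J, ∀ x' ∈ J, AEStronglyMeasurable (fun ω => F3 ω x x') m
  b0 : ∀ᵐ ω ∂m, ∀ x ∈ J, ∀ x' ∈ J, |F ω x x'| ≤ B ω
  b1 : ∀ᵐ ω ∂m, ∀ x ∈ J, ∀ x' ∈ J, |F1 ω x x'| ≤ B ω
  b2 : ∀ᵐ ω ∂m, ∀ x ∈ J, ∀ x' ∈ J, |F2 ω x x'| ≤ B ω
  b3 : ∀ᵐ ω ∂m, ∀ x ∈ J, ∀ x' ∈ J, |F3 ω x x'| ≤ B ω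
  d1 : ∀ᵐ ω ∂m, ∀ x ∈ J, ∀ x' ∈ J, HasDerivAt (fun s => F ω s x') (F1 ω x x') x
  d2 : ∀ᵐ ω ∂m, ∀ x ∈ J, ∀ x' ∈ J, HasDerivAt (fun s => F ω x s) (F2 ω x x') x'
  d3 : ∀ᵐ ω ∂m, ∀ x ∈ J, ∀ x' ∈ J, HasDerivAt (fun s => F2 ω s x') (F3 ω x x') x
  int : Integrable B m

theorem der {Ω : Type} [MeasurableSpace Ω] {m : Measure Ω} {J : Set ℝ} (hJ : IsOpen J)
    {f f' : Ω → ℝ → ℝ} {B : Ω → ℝ} (h0 : ∀ x ∈ J, AEStronglyMeasurable (fun ω => f ω x) m)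
    (h1 : ∀ x ∈ J, AEStronglyMeasurable (fun ω => f' ω x) m)
    (hb0 : ∀ᵐ ω ∂m, ∀ x ∈ J, |f ω x| ≤ B ω) (hb1 : ∀ᵐ ω ∂m, ∀ x ∈ J, |f' ω x| ≤ B ω)
    (hd : ∀ᵐ ω ∂m, ∀ x ∈ J, HasDerivAt (f ω) (f' ω x) x) (hB : Integrable B m) {x : ℝ} (hx : x ∈ J) :
    Integrable (fun ω => f ω x) m ∧ Integrable (fun ω => f' ω x) m ∧
      HasDerivAt (fun s => ∫ ω, f ω s ∂m) (∫ ω, f' ω x ∂m) x := by
  have hi : Integrable (fun ω => f ω x) m := by
    refine hB.mono' (h0 x hx) ?_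
    filter_upwards [hb0] with ω hω using hω x hx
  refine ⟨hi, ?_⟩
  refine hasDerivAt_integral_of_dominated_loc_of_deriv_le (F := fun s ω => f ω s)
    (F' := fun s ω => f' ω s) (hJ.mem_nhds hx) ?_ hi (h1 x hx) hb1 hB hd
  filter_upwards [hJ.mem_nhds hx] with s hs using h0 s hs

variable {Ω : Type} [MeasurableSpace Ω] {m : Measure Ω} {J : Set ℝ}
    {F F1 F2 F3 : Ω → ℝ → ℝ → ℝ} {B : Ω → ℝ}

theorem MD.out1 (h : MD m J F F1 F2 F3 B) (hJ : IsOpen J) {x x' : ℝ} (hx : x ∈ J) (hx' : x' ∈ J) :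
    Integrable (fun ω => F ω x x') m ∧ Integrable (fun ω => F1 ω x x') m ∧
      HasDerivAt (fun s => ∫ ω, F ω s x' ∂m) (∫ ω, F1 ω x x' ∂m) x :=
  der hJ (f := fun ω s => F ω s x') (f' := fun ω s => F1 ω s x') (fun s hs => h.m0 s hs x' hx')
    (fun s hs => h.m1 s hs x' hx') (by filter_upwards [h.b0] with ω hω s hs using hω s hs x' hx')
    (by filter_upwards [h.b1] with ω hω s hs using hω s hs x' hx')
    (by filter_upwards [h.d1] with ω hω s hs using hω s hs x' hx') h.int hx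

theorem MD.out2 (h : MD m J F F1 F2 F3 B) (hJ : IsOpen J) {x x' : ℝ} (hx : x ∈ J) (hx' : x' ∈ J) :
    Integrable (fun ω => F ω x x') m ∧ Integrable (fun ω => F2 ω x x') m ∧
      HasDerivAt (fun s => ∫ ω, F ω x s ∂m) (∫ ω, F2 ω x x' ∂m) x' :=
  der hJ (f := fun ω s => F ω x s) (f' := fun ω s => F2 ω x s) (fun s hs => h.m0 x hx s hs)
    (fun s hs => h.m2 x hx s hs) (by filter_upwards [h.b0] with ω hω s hs using hω x hx s hs)
    (by filter_upwards [h.b2] with ω hω s hs using hω x hx s hs)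
    (by filter_upwards [h.d2] with ω hω s hs using hω x hx s hs) h.int hx'

theorem MD.out3 (h : MD m J F F1 F2 F3 B) (hJ : IsOpen J) {x x' : ℝ} (hx : x ∈ J) (hx' : x' ∈ J) :
    Integrable (fun ω => F2 ω x x') m ∧ Integrable (fun ω => F3 ω x x') m ∧
      HasDerivAt (fun s => ∫ ω, F2 ω s x' ∂m) (∫ ω, F3 ω x x' ∂m) x :=
  der hJ (f := fun ω s => F2 ω s x') (f' := fun ω s => F3 ω s x') (fun s hs => h.m2 s hs x' hx')
    (fun s hs => h.m3 s hs x' hx') (by filter_upwards [h.b2] with ω hω s hs using hω s hs x' hx')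
    (by filter_upwards [h.b3] with ω hω s hs using hω s hs x' hx')
    (by filter_upwards [h.d3] with ω hω s hs using hω s hs x' hx') h.int hx

/-- iterated parameter integrals: the inner integrals `∫ E t ω x x'` satisfy the hypotheses again -/
theorem MD.outer {T : Type} [MeasurableSpace T] {τ : Measure T} [SFinite m]
    {E E1 E2 E3 : T → Ω → ℝ → ℝ → ℝ} {C : T → Ω → ℝ} {W : T → ℝ} {D : T → ℝ} (hJ : IsOpen J)
    (h : ∀ᵐ t ∂τ, MD m J (E t) (E1 t) (E2 t) (E3 t) (C t))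
    (hW : Measurable W) (hC : ∀ᵐ t ∂τ, |W t| * ∫ ω, C t ω ∂m ≤ D t) (hD : Integrable D τ)
    (hm0 : ∀ x x', StronglyMeasurable (fun p : T × Ω => E p.1 p.2 x x'))
    (hm1 : ∀ x x', StronglyMeasurable (fun p : T × Ω => E1 p.1 p.2 x x'))
    (hm2 : ∀ x x', StronglyMeasurable (fun p : T × Ω => E2 p.1 p.2 x x'))
    (hm3 : ∀ x x', StronglyMeasurable (fun p : T × Ω => E3 p.1 p.2 x x')) :
    MD τ J (fun t x x' => W t * ∫ ω, E t ω x x' ∂m) (fun t x x' => W t * ∫ ω, E1 t ω x x' ∂m)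
      (fun t x x' => W t * ∫ ω, E2 t ω x x' ∂m) (fun t x x' => W t * ∫ ω, E3 t ω x x' ∂m) D := by
  have key : ∀ (G : T → Ω → ℝ → ℝ → ℝ), (∀ᵐ t ∂τ, ∀ᵐ ω ∂m, ∀ x ∈ J, ∀ x' ∈ J, |G t ω x x'| ≤ C t ω) →
      ∀ᵐ t ∂τ, ∀ x ∈ J, ∀ x' ∈ J, |W t * ∫ ω, G t ω x x' ∂m| ≤ D t := by
    intro G hG
    filter_upwards [h, hG, hC] with t ht hGt hCt x hx x' hx'
    rw [abs_mul]
    refine le_trans (mul_le_mul_of_nonneg_left ?_ (abs_nonneg _)) hCt
    rw [← Real.norm_eq_abs]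
    refine norm_integral_le_of_norm_le (f := fun ω => G t ω x x') ht.int ?_
    filter_upwards [hGt] with ω hω using hω x hx x' hx'
  refine ⟨?_, ?_, ?_, ?_, ?_, ?_, ?_, ?_, ?_, ?_, ?_, hD⟩
  · intro x _ x' _
    exact (hW.stronglyMeasurable.mul (hm0 x x').integral_prod_right).aestronglyMeasurable
  · intro x _ x' _
    exact (hW.stronglyMeasurable.mul (hm1 x x').integral_prod_right).aestronglyMeasurable
  · intro x _ x' _
    exact (hW.stronglyMeasurable.mul (hm2 x x').integral_prod_right).aestronglyMeasurable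
  · intro x _ x' _
    exact (hW.stronglyMeasurable.mul (hm3 x x').integral_prod_right).aestronglyMeasurable
  · exact key E (by filter_upwards [h] with t ht using ht.b0)
  · exact key E1 (by filter_upwards [h] with t ht using ht.b1)
  · exact key E2 (by filter_upwards [h] with t ht using ht.b2)
  · exact key E3 (by filter_upwards [h] with t ht using ht.b3)
  · filter_upwards [h] with t ht x hx x' hx' using ((ht.out1 hJ hx hx').2.2).const_mul _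
  · filter_upwards [h] with t ht x hx x' hx' using ((ht.out2 hJ hx hx').2.2).const_mul _
  · filter_upwards [h] with t ht x hx x' hx' using ((ht.out3 hJ hx hx').2.2).const_mul _

/-- two parameter integrals which agree have the same derivatives -/
theorem MD.unique {Ω' : Type} [MeasurableSpace Ω'] {m' : Measure Ω'}
    {G G1 G2 G3 : Ω' → ℝ → ℝ → ℝ} {B' : Ω' → ℝ} (hJ : IsOpen J) (h : MD m J F F1 F2 F3 B)
    (h' : MD m' J G G1 G2 G3 B')
    (he : ∀ x ∈ J, ∀ x' ∈ J, ∫ ω, F ω x x' ∂m = ∫ ω, G ω x x' ∂m') {x x' : ℝ} (hx : x ∈ J)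
    (hx' : x' ∈ J) :
    ∫ ω, F1 ω x x' ∂m = ∫ ω, G1 ω x x' ∂m' ∧ ∫ ω, F2 ω x x' ∂m = ∫ ω, G2 ω x x' ∂m' ∧
      ∫ ω, F3 ω x x' ∂m = ∫ ω, G3 ω x x' ∂m' := by
  have e2 : ∀ x ∈ J, ∀ x' ∈ J, ∫ ω, F2 ω x x' ∂m = ∫ ω, G2 ω x x' ∂m' := by
    intro x hx x' hx'
    refine (h.out2 hJ hx hx').2.2.unique ((h'.out2 hJ hx hx').2.2.congr_of_eventuallyEq ?_)
    filter_upwards [hJ.mem_nhds hx'] with s hs using he x hx s hs
  refine ⟨?_, e2 x hx x' hx', ?_⟩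
  · refine (h.out1 hJ hx hx').2.2.unique ((h'.out1 hJ hx hx').2.2.congr_of_eventuallyEq ?_)
    filter_upwards [hJ.mem_nhds hx] with s hs using he s hs x' hx'
  · refine (h.out3 hJ hx hx').2.2.unique ((h'.out3 hJ hx hx').2.2.congr_of_eventuallyEq ?_)
    filter_upwards [hJ.mem_nhds hx] with s hs using e2 s hs x' hx'

end Pool.Agent.H800.L7A
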